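import Pool.Agent.Lib.MP_b197b4_ntW.WDefs

/-!
# Part W, leaf WGa: the ramified points
-/

set_option autoImplicit false

noncomputable section

namespace MPb197b4W

open Polynomial

/-- For a monic polynomial the resultant with the derivative is a unit if and only if the polynomial is
separable. -/
theorem isUnit_res_iff {A : Type} [CommRing A] {f : A[X]} {N : ℕ} (hf : f.Monic)
    (hN : f.natDegree = N) :
    IsUnit (resultant f (derivative f) N (N - 1)) ↔ f.Separable := by
  have h1 : (derivative f).natDegree ≤ N - 1 := hN ▸ natDegree_derivative_le f
  obtain ⟨k, hk⟩ := Nat.exists_eq_add_of_le h1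
  have h2 : resultant f (derivative f) N (N - 1)
      = resultant f (derivative f) f.natDegree (derivative f).natDegree := by
    rw [hk, resultant_add_right_deg _ _ _ _ _ le_rfl, ← hN, coeff_natDegree, hf.leadingCoeff,
      one_pow, one_mul]
  rw [h2]
  exact isUnit_resultant_iff_isCoprime hf

/-- The degree of a determinant. -/
theorem natDegree_det_le_of_forall_le {k : Type} [Field k] {n : ℕ} (M : Matrix (Fin n) (Fin n) k[X])
    (D : ℕ) (hM : ∀ i j, (M i j).natDegree ≤ D) : M.det.natDegree ≤ n * D := by
  rw [Matrix.det_apply]
  refine natDegree_sum_le_of_forall_le _ _ fun σ _ => ?_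
  refine (natDegree_smul_le _ _).trans ?_
  refine (natDegree_prod_le _ _).trans ?_
  refine (Finset.sum_le_sum fun i _ => hM (σ i) i).trans ?_
  simp

/-- The points where `R_t` is not separable are roots of the resultant of `R` and its derivative with
respect to `x` (`Polynomial.resultant R (derivative R) N (N - 1)`, a determinant of size `2 N - 1` with
entries of degree `≤ D`; `resultant_map_map`; not zero over the field `k(t)` because `R` is separable
there, `resultant_eq_zero_iff`; at `t` it is not zero only if `R_t` and its derivative are coprime). -/
theorem bad_points {k : Type} [Field k] {N D : ℕ} {R : k[X][X]} (hm : R.Monic)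
    (hN : R.natDegree = N) (hD : ∀ j, (R.coeff j).natDegree ≤ D)
    (hs : (R.map (algebraMap k[X] (RatFunc k))).Separable) (S : Finset k)
    (hS : ∀ t ∈ S, ¬ (spec R t).Separable) : S.card ≤ 2 * N * D := by
  classical
  set r : k[X] := resultant R (derivative R) N (N - 1) with hr
  have hmap : ∀ {B : Type} [CommRing B] [Nontrivial B] (φ : k[X] →+* B),
      IsUnit (φ r) ↔ (R.map φ).Separable := by
    intro B _ _ φ
    rw [← isUnit_res_iff (hm.map φ) ((hm.natDegree_map φ).trans hN), derivative_map,
      resultant_map_map]
  have h0 : r ≠ 0 := by
    intro h
    have := (hmap (algebraMap k[X] (RatFunc k))).2 hs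
    rw [h, map_zero] at this
    exact not_isUnit_zero this
  have h1 : ∀ t ∈ S, r.IsRoot t := by
    intro t ht
    by_contra h
    exact hS t ht ((hmap (evalRingHom t)).1 (IsUnit.mk0 _ h))
  have h2 : r.natDegree ≤ (N + (N - 1)) * D := by
    refine natDegree_det_le_of_forall_le _ D fun i j => ?_
    have hd : ∀ l, ((derivative R).coeff l).natDegree ≤ D := by
      intro l
      rw [coeff_derivative]
      refine natDegree_mul_le.trans ?_
      have : ((l : k[X]) + 1).natDegree = 0 := by
        have := natDegree_natCast (R := k) (l + 1)
        simpa using this
      rw [this, add_zero]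
      exact hD _
    rw [sylvester]
    simp only [Matrix.of_apply]
    induction j using Fin.addCases with
    | left j =>
      simp only [Fin.addCases_left]
      split_ifs
      · exact hd _
      · simp
    | right j =>
      simp only [Fin.addCases_right]
      split_ifs
      · exact hD _
      · simp
  have h3 : S.card ≤ r.natDegree := by
    refine (Finset.card_le_card (t := r.roots.toFinset) ?_).trans
      ((Multiset.toFinset_card_le _).trans (card_roots' r))
    intro t ht
    rw [Multiset.mem_toFinset, mem_roots h0]
    exact h1 t ht
  refine h3.trans (h2.trans (Nat.mul_le_mul_right _ ?_))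
  omega

end MPb197b4W
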