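import Pool.Agent.Lib.MP_b197b4_ntW.WDefs

/-!
# Part W, leaf WGb: the Galois group acts by all the permutations: enumeration of the roots
-/

set_option autoImplicit false

noncomputable section

namespace MPb197b4W

open Polynomial

/-- The Galois group of `f` acts on the roots in the splitting field by all the permutations. -/
def FullGal {K : Type} [Field K] (f : K[X]) : Prop :=
  ∀ σ : Equiv.Perm (f.rootSet f.SplittingField), ∃ τ : f.SplittingField ≃ₐ[K] f.SplittingField,
    ∀ x : f.rootSet f.SplittingField, τ x = σ x

/-- The same with Mathlib's homomorphism. -/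
theorem fullGal_of_surjective {K : Type} [Field K] {f : K[X]}
    [Fact ((f.map (algebraMap K f.SplittingField)).Splits)]
    (hG : Function.Surjective (Polynomial.Gal.galActionHom f f.SplittingField)) : FullGal f := by
  intro σ
  obtain ⟨g, hg⟩ := hG σ
  obtain ⟨ϕ, hϕ⟩ := Polynomial.Gal.restrict_surjective f f.SplittingField g
  refine ⟨ϕ, fun x => ?_⟩
  have h1 := Polynomial.Gal.restrict_smul ϕ x
  rw [hϕ] at h1
  rw [← h1, ← hg]
  rfl

/-- The splitting field of a separable polynomial of degree `N` over a field `K` whose Galois group acts on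
the roots by all the permutations: an enumeration `x` of the roots, for every permutation exactly one
automorphism. -/
theorem exists_enum {K : Type} [Field K] {f : K[X]} {N : ℕ} (hN : f.natDegree = N) (hm : f.Monic)
    (hs : f.Separable) (hG : FullGal f) :
    ∃ (x : Fin N → f.SplittingField) (τ : Equiv.Perm (Fin N) ≃ (f.SplittingField ≃ₐ[K] f.SplittingField)),
      Function.Injective x ∧ (∀ i, aeval (x i) f = 0) ∧ ∀ σ i, τ σ (x i) = x (σ i) := by
  classical
  have hcard : Fintype.card (f.rootSet f.SplittingField) = N := by
    rw [card_rootSet_eq_natDegree hs (SplittingField.splits f), hN]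
  have e : Fin N ≃ f.rootSet f.SplittingField :=
    (Fintype.equivFinOfCardEq hcard).symm
  have hroot : ∀ i, aeval ((e i : f.rootSet f.SplittingField) : f.SplittingField) f = 0 := fun i =>
    (mem_rootSet.1 (e i).2).2
  have hinj : Function.Injective (fun i => ((e i : f.rootSet f.SplittingField) : f.SplittingField)) := by
    intro i j hij
    exact e.injective (Subtype.ext hij)
  -- every permutation is given by an automorphism
  have h1 : ∀ σ : Equiv.Perm (Fin N), ∃ τ : f.SplittingField ≃ₐ[K] f.SplittingField,
      ∀ i, τ (e i) = ((e (σ i) : f.rootSet f.SplittingField) : f.SplittingField) := by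
    intro σ
    obtain ⟨τ, hτ⟩ := hG (e.symm.trans (σ.trans e))
    refine ⟨τ, fun i => ?_⟩
    rw [hτ (e i)]
    simp
  -- every automorphism gives a permutation
  have h2 : ∀ τ : f.SplittingField ≃ₐ[K] f.SplittingField, ∃ σ : Equiv.Perm (Fin N),
      ∀ i, τ (e i) = ((e (σ i) : f.rootSet f.SplittingField) : f.SplittingField) := by
    intro τ
    have hmem : ∀ i, τ (e i) ∈ f.rootSet f.SplittingField := by
      intro i
      rw [mem_rootSet]
      refine ⟨hm.ne_zero, ?_⟩
      have h := Polynomial.aeval_algHom_apply τ.toAlgHom
        ((e i : f.rootSet f.SplittingField) : f.SplittingField) f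
      rw [hroot i, map_zero] at h
      exact h
    have hinj' : Function.Injective fun i => e.symm ⟨τ (e i), hmem i⟩ := by
      intro i j hij
      have h3 := e.symm.injective hij
      have h4 : τ (e i) = τ (e j) := congrArg Subtype.val h3
      exact hinj (τ.injective h4)
    refine ⟨Equiv.ofBijective _ (Finite.injective_iff_bijective.1 hinj'), fun i => ?_⟩
    simp
  have h3 : ∀ τ τ' : f.SplittingField ≃ₐ[K] f.SplittingField,
      (∀ i, τ (e i) = τ' (e i)) → τ = τ' := by
    intro τ τ' h
    have h4 : τ.toAlgHom = τ'.toAlgHom := by
      refine AlgHom.ext_of_adjoin_eq_top (SplittingField.adjoin_rootSet f) ?_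
      intro y hy
      have h5 := h (e.symm ⟨y, hy⟩)
      simpa using h5
    ext y
    exact congrArg (fun g : f.SplittingField →ₐ[K] f.SplittingField => g y) h4
  choose T hT using h1
  have hTb : Function.Bijective T := by
    constructor
    · intro σ σ' h
      ext i
      have h5 : ((e (σ i) : f.rootSet f.SplittingField) : f.SplittingField) = e (σ' i) := by
        rw [← hT σ i, ← hT σ' i, h]
      exact congrArg Fin.val (hinj h5)
    · intro τ
      obtain ⟨σ, hσ⟩ := h2 τ
      exact ⟨σ, h3 _ _ fun i => by rw [hT σ i, hσ i]⟩
  exact ⟨fun i => e i, Equiv.ofBijective T hTb, hinj, hroot, fun σ i => hT σ i⟩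

end MPb197b4W
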