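import Pool.Agent.Lib.MP_b197b4_ntW.WH
import Pool.Agent.Lib.MP_b197b4_ntW.WGa
import Pool.Agent.Lib.MP_b197b4_ntW.WGb

/-!
# Part W: Chebotarev's theorem for the coverings of the line with group `S_N`
-/

set_option autoImplicit false

noncomputable section

namespace MPb197b4W

open Polynomial

/-- The number of solutions of `t ^ Q = t`. -/
theorem exists_fixed {p n : ℕ} [Fact p.Prime] {k : Type} [Field k] [CharP k p] [IsAlgClosed k]
    (hn : n ≠ 0) : ∃ F : Finset k, (∀ t, t ∈ F ↔ t ^ p ^ n = t) ∧ F.card = p ^ n := by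
  classical
  have hp : 1 < p := (Fact.out : p.Prime).one_lt
  have hQ : 1 < p ^ n := Nat.one_lt_pow hn hp
  have h0 : (X ^ p ^ n - X : k[X]) ≠ 0 := by
    apply Monic.ne_zero
    apply monic_X_pow_sub
    rw [degree_X]
    exact_mod_cast hQ
  refine ⟨(X ^ p ^ n - X : k[X]).roots.toFinset, ?_, ?_⟩
  · intro t
    rw [Multiset.mem_toFinset, mem_roots h0, IsRoot, eval_sub, eval_pow, eval_X, sub_eq_zero]
  · have h1 : (X ^ p ^ n - X : k[X]).Separable := galois_poly_separable p (p ^ n) (dvd_pow_self p hn)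
    rw [Multiset.toFinset_card_of_nodup (nodup_roots h1)]
    have h2 := (IsAlgClosed.splits (X ^ p ^ n - X : k[X])).natDegree_eq_card_roots
    rw [← h2]
    exact FiniteField.X_pow_card_sub_X_natDegree_eq k hQ

/-- The Galois group has the order of the symmetric group. -/
theorem fullGal_of_card {K : Type} [Field K] {f : K[X]} (hs : f.Separable)
    (h : Nat.card f.Gal = f.natDegree.factorial) : FullGal f := by
  classical
  have hsp : Fact ((f.map (algebraMap K f.SplittingField)).Splits) := ⟨SplittingField.splits f⟩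
  have hcard : Fintype.card (f.rootSet f.SplittingField) = f.natDegree :=
    card_rootSet_eq_natDegree hs hsp.out
  have hinj := Gal.galActionHom_injective f f.SplittingField
  have h2 : Fintype.card f.Gal = Fintype.card (Equiv.Perm (f.rootSet f.SplittingField)) := by
    rw [Fintype.card_perm, hcard, ← h, Nat.card_eq_fintype_card]
  exact fullGal_of_surjective ((Fintype.bijective_iff_injective_and_card _).2 ⟨hinj, h2⟩).2

/-- Bombieri, Chebotarev: all the classes have about the same number of points; the number of points where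
`R_t` has `N` different roots in `F_Q`. -/
theorem chebotarev (N D : ℕ) : ∃ c : ℝ, ∀ (p μ : ℕ) [Fact p.Prime] (k : Type) [Field k] [CharP k p]
    [IsAlgClosed k] (R : k[X][X]), μ ≠ 0 → R.Monic → R.natDegree = N →
    (∀ j, (R.coeff j).natDegree ≤ D) →
    (∀ i j, ((R.coeff i).coeff j) ^ p ^ (2 * μ) = (R.coeff i).coeff j) →
    (R.map (algebraMap k[X] (RatFunc k))).Separable → FullGal (R.map (algebraMap k[X] (RatFunc k))) →
    |(N.factorial : ℝ) * ({t : k | t ^ p ^ (2 * μ) = t ∧ IsSplitAt N (p ^ (2 * μ)) R t}.ncard : ℝ)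
      - (p : ℝ) ^ (2 * μ)| ≤ c * (p : ℝ) ^ μ := by
  classical
  obtain ⟨c, hc⟩ := sum_le N D
  refine ⟨2 * N * D * N.factorial + N.factorial * c, ?_⟩
  intro p μ _ k _ _ _ R hμ hm hN hD hF hs hG
  have hp : 1 < p := (Fact.out : p.Prime).one_lt
  set f : (RatFunc k)[X] := R.map (algebraMap k[X] (RatFunc k)) with hf
  have hfm : f.Monic := hm.map _
  have hfN : f.natDegree = N := by rw [hf, hm.natDegree_map, hN]
  obtain ⟨x, τ, hx, hxr, hτ⟩ := exists_enum hfN hfm hs hG
  have : IsGalois (RatFunc k) f.SplittingField := IsGalois.of_separable_splitting_field hs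
  have hroot : ∀ i, eval₂ (algebraMap k[X] f.SplittingField) (x i) R = 0 := by
    intro i
    have e : eval₂ (algebraMap (RatFunc k) f.SplittingField) (x i)
      (R.map (algebraMap k[X] (RatFunc k))) = 0 := hxr i
    rw [eval₂_map, ← IsScalarTower.algebraMap_eq] at e
    exact e
  let cv : Cov k f.SplittingField N D :=
    { x := x, inj := hx, lm := fun i => LM.root hm hD (hroot i), τ := τ, act := hτ }
  have hμ2 : 2 * μ ≠ 0 := by omega
  obtain ⟨F, hFm, hFc⟩ := exists_fixed (k := k) (p := p) hμ2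
  set S : Finset k := F.filter fun t => (spec R t).Separable with hS
  have hP : ∀ t : S, Nonempty (Pt cv (p ^ (2 * μ)) (t : k)) := by
    intro t
    have ht := Finset.mem_filter.1 t.2
    exact exists_pt hm hN hF cv hroot ((hFm _).1 ht.1) ht.2
  let P : ∀ t : S, Pt cv (p ^ (2 * μ)) (t : k) := fun t => (hP t).some
  -- the numbers
  set G := N.factorial with hGdef
  let n : Equiv.Perm (Fin N) → ℕ := fun σ =>
    ∑ t : S, (Finset.univ.filter fun ρ : Equiv.Perm (Fin N) => (P t).φ * ρ = ρ * σ).card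
  have hn : ∀ σ, n σ ≤ p ^ (2 * μ) + c * p ^ μ := fun σ => hc p μ k f.SplittingField cv S P σ hμ
  have hGcard : Fintype.card (Equiv.Perm (Fin N)) = G := by rw [Fintype.card_perm, Fintype.card_fin]
  have hsum : ∑ σ, n σ = S.card * G := by
    simp only [n]
    rw [Finset.sum_comm]
    have e1 : ∀ t : S, ∑ σ, (Finset.univ.filter fun ρ : Equiv.Perm (Fin N) =>
        (P t).φ * ρ = ρ * σ).card = G := by
      intro t
      simp only [Finset.card_filter]
      rw [Finset.sum_comm]
      have e2 : ∀ ρ : Equiv.Perm (Fin N), ∑ σ : Equiv.Perm (Fin N),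
          (if (P t).φ * ρ = ρ * σ then 1 else 0) = 1 := by
        intro ρ
        rw [Finset.sum_eq_single (ρ⁻¹ * ((P t).φ * ρ))]
        · rw [if_pos (by group)]
        · intro σ _ hσ
          rw [if_neg]
          intro h
          apply hσ
          rw [h]
          group
        · simp
      rw [Finset.sum_congr rfl fun ρ _ => e2 ρ, Finset.sum_const, Finset.card_univ, hGcard]
      simp
    rw [Finset.sum_congr rfl fun t _ => e1 t, Finset.sum_const, Finset.card_univ, Fintype.card_coe,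
      smul_eq_mul]
  -- the split points
  set A : Finset k := F.filter fun t => IsSplitAt N (p ^ (2 * μ)) R t with hA
  have hAset : {t : k | t ^ p ^ (2 * μ) = t ∧ IsSplitAt N (p ^ (2 * μ)) R t}.ncard = A.card := by
    rw [← Set.ncard_coe_finset]
    congr 1
    ext t
    simp only [hA, Finset.coe_filter, Set.mem_ofPred_eq, hFm]
  have hn1 : n 1 = G * A.card := by
    have e1 : ∀ t : S, (Finset.univ.filter fun ρ : Equiv.Perm (Fin N) =>
        (P t).φ * ρ = ρ * 1).card = if IsSplitAt N (p ^ (2 * μ)) R (t : k) then G else 0 := by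
      intro t
      have ht := Finset.mem_filter.1 t.2
      rw [← (P t).split_iff hm hN hroot ht.2]
      have e2 : ∀ ρ : Equiv.Perm (Fin N), (P t).φ * ρ = ρ * 1 ↔ (P t).φ = 1 := by
        intro ρ
        rw [mul_one, mul_eq_right]
      simp only [e2]
      split_ifs with h
      · rw [Finset.filter_true_of_mem (fun _ _ => h), Finset.card_univ, hGcard]
      · rw [Finset.filter_false_of_mem (fun _ _ => h), Finset.card_empty]
    simp only [n]
    rw [Finset.sum_congr rfl fun t _ => e1 t]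
    rw [Finset.sum_coe_sort S (fun t => if IsSplitAt N (p ^ (2 * μ)) R t then G else 0)]
    rw [← Finset.sum_filter, Finset.sum_const, smul_eq_mul, mul_comm]
    congr 2
    rw [hS, hA, Finset.filter_filter]
    apply Finset.filter_congr
    intro t _
    exact ⟨fun h => h.2, fun h => ⟨separable_of_split hm hN h, h⟩⟩
  have hbad : F.card ≤ S.card + 2 * N * D := by
    have e1 := bad_points hm hN hD hs (F.filter fun t => ¬ (spec R t).Separable)
      fun t ht => (Finset.mem_filter.1 ht).2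
    have e2 := Finset.card_filter_add_card_filter_not (s := F) (fun t => (spec R t).Separable)
    rw [← hS] at e2
    omega
  rw [hAset]
  have hQ : ((p ^ (2 * μ) : ℕ) : ℝ) = (p : ℝ) ^ (2 * μ) := by push_cast; rfl
  have hq : ((p ^ μ : ℕ) : ℝ) = (p : ℝ) ^ μ := by push_cast; rfl
  have hq1 : (1 : ℝ) ≤ (p : ℝ) ^ μ := one_le_pow₀ (by exact_mod_cast hp.le)
  have hGpos : 1 ≤ G := N.factorial_pos
  have hc0 : (0 : ℝ) ≤ (c : ℝ) := Nat.cast_nonneg _
  have hND : (0 : ℝ) ≤ (N : ℝ) * D := by positivity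
  have hG1 : (1 : ℝ) ≤ (G : ℝ) := by exact_mod_cast hGpos
  -- upper bound
  have hup : (G : ℝ) * A.card ≤ (p : ℝ) ^ (2 * μ) + c * (p : ℝ) ^ μ := by
    have := hn 1
    rw [hn1] at this
    rw [← hQ, ← hq]
    exact_mod_cast this
  -- lower bound
  have hlow : ((S.card * G : ℕ) : ℝ) ≤ (G : ℝ) * A.card + (G - 1) * ((p : ℝ) ^ (2 * μ) + c * (p : ℝ) ^ μ) := by
    rw [← hsum, ← Finset.add_sum_erase _ _ (Finset.mem_univ (1 : Equiv.Perm (Fin N))), hn1]
    have e1 : ∑ σ ∈ Finset.univ.erase (1 : Equiv.Perm (Fin N)), n σ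
        ≤ ∑ _σ ∈ Finset.univ.erase (1 : Equiv.Perm (Fin N)), (p ^ (2 * μ) + c * p ^ μ) :=
      Finset.sum_le_sum fun σ _ => hn σ
    rw [Finset.sum_const, Finset.card_erase_of_mem (Finset.mem_univ _), Finset.card_univ, hGcard,
      smul_eq_mul] at e1
    have e2 : (((∑ σ ∈ Finset.univ.erase (1 : Equiv.Perm (Fin N)), n σ : ℕ)) : ℝ)
        ≤ (((G - 1) * (p ^ (2 * μ) + c * p ^ μ) : ℕ) : ℝ) := by exact_mod_cast e1
    rw [Nat.cast_mul, Nat.cast_sub hGpos] at e2
    push_cast at e2 ⊢
    linarith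
  have hF' : ((p : ℝ) ^ (2 * μ)) ≤ S.card + 2 * N * D := by
    rw [← hQ, ← hFc]
    exact_mod_cast hbad
  rw [abs_le]
  push_cast at hlow ⊢
  set Q : ℝ := (p : ℝ) ^ (2 * μ) with hQd
  set q : ℝ := (p : ℝ) ^ μ with hqd
  have hprod : G * Q ≤ S.card * G + 2 * N * D * G := by nlinarith
  have h2 : 2 * (N : ℝ) * D * G ≤ 2 * N * D * G * q := by
    have : 0 ≤ 2 * (N : ℝ) * D * G := by positivity
    nlinarith
  constructor
  · nlinarith [mul_nonneg hc0 (zero_le_one.trans hq1)]
  · have h3 : (c : ℝ) * q ≤ G * c * q := by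
      have : 0 ≤ (c : ℝ) * q := mul_nonneg hc0 (zero_le_one.trans hq1)
      nlinarith
    have h4 : 0 ≤ 2 * (N : ℝ) * D * G * q := by positivity
    nlinarith

/-- The same, the hypothesis on the Galois group in the form: its order is `N!`. -/
theorem chebotarev_card (N D : ℕ) : ∃ c : ℝ, ∀ (p μ : ℕ) [Fact p.Prime] (k : Type) [Field k]
    [CharP k p] [IsAlgClosed k] (R : k[X][X]), μ ≠ 0 → R.Monic → R.natDegree = N →
    (∀ j, (R.coeff j).natDegree ≤ D) →
    (∀ i j, ((R.coeff i).coeff j) ^ p ^ (2 * μ) = (R.coeff i).coeff j) →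
    (R.map (algebraMap k[X] (RatFunc k))).Separable →
    Nat.card (R.map (algebraMap k[X] (RatFunc k))).Gal = N.factorial →
    |(N.factorial : ℝ) * ({t : k | t ^ p ^ (2 * μ) = t ∧ IsSplitAt N (p ^ (2 * μ)) R t}.ncard : ℝ)
      - (p : ℝ) ^ (2 * μ)| ≤ c * (p : ℝ) ^ μ := by
  obtain ⟨c, hc⟩ := chebotarev N D
  refine ⟨c, fun p μ _ k _ _ _ R hμ hm hN hD hF hs hG => hc p μ k R hμ hm hN hD hF hs ?_⟩
  apply fullGal_of_card hs
  rw [hG, hm.natDegree_map, hN]

end MPb197b4W
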