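import Pool.Agent.Lib.MP_b197b4_ntW.WDefs

/-!
# Part W, leaf WA: the spaces `F_m`, norms
-/

set_option autoImplicit false

noncomputable section

namespace MPb197b4W

open Polynomial

variable {k : Type} [Field k] {E : Type} [Field E] [Algebra (RatFunc k) E] [Algebra k[X] E]
  [IsScalarTower k[X] (RatFunc k) E]

theorem WA_phi_X : ((algebraMap (RatFunc k) E).comp (pInf k)) X = tinv k E := by
  simp [pInf, tinv]

theorem WA_alg (f : k[X]) : algebraMap k[X] (RatFunc k) f = eval₂ RatFunc.C RatFunc.X f := by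
  have h : algebraMap k[X] (RatFunc k) = eval₂RingHom RatFunc.C RatFunc.X := by
    apply Polynomial.ringHom_ext
    · intro a
      simp
    · simp
  rw [h]
  rfl

theorem WA_tinv_ne : tinv k E ≠ 0 := by
  unfold tinv
  rw [Ne, map_eq_zero]
  exact inv_ne_zero RatFunc.X_ne_zero

/-- `f(t) / t ^ m` is a polynomial in `1/t`. -/
theorem WA_reflect {m : ℕ} {f : k[X]} (hf : f.natDegree ≤ m) :
    pInf k (reflect m f) = algebraMap k[X] (RatFunc k) f * (RatFunc.X)⁻¹ ^ m := by
  let _ : Invertible (RatFunc.X : RatFunc k) := invertibleOfNonzero RatFunc.X_ne_zero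
  have h := eval₂_reflect_mul_pow RatFunc.C (RatFunc.X : RatFunc k) m f hf
  rw [WA_alg, ← h]
  have hx : (⅟RatFunc.X : RatFunc k) = (RatFunc.X)⁻¹ := invOf_eq_inv _
  rw [hx]
  show eval₂ RatFunc.C (RatFunc.X)⁻¹ (reflect m f) = _
  rw [mul_assoc, ← mul_pow, mul_inv_cancel₀ RatFunc.X_ne_zero, one_pow, mul_one]

theorem WA_reflect' {m : ℕ} {f : k[X]} (hf : f.natDegree ≤ m) :
    ((algebraMap (RatFunc k) E).comp (pInf k)) (reflect m f) =
      algebraMap k[X] E f * tinv k E ^ m := by
  rw [RingHom.comp_apply, WA_reflect hf, map_mul, map_pow,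
    ← IsScalarTower.algebraMap_apply k[X] (RatFunc k) E]
  rfl

theorem LM.mul {m n : ℕ} {b c : E} (hb : LM (k := k) m b) (hc : LM (k := k) n c) :
    LM (k := k) (m + n) (b * c) := by
  refine ⟨hb.1.mul hc.1, ?_⟩
  have h : b * c * tinv k E ^ (m + n) = (b * tinv k E ^ m) * (c * tinv k E ^ n) := by
    rw [pow_add]; ring
  rw [h]
  exact RingHom.IsIntegralElem.mul _ hb.2 hc.2

theorem LM.add {m : ℕ} {b c : E} (hb : LM (k := k) m b) (hc : LM (k := k) m c) :
    LM (k := k) m (b + c) := by
  refine ⟨hb.1.add hc.1, ?_⟩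
  rw [add_mul]
  exact RingHom.IsIntegralElem.add _ hb.2 hc.2

theorem WA_tinv_int : ((algebraMap (RatFunc k) E).comp (pInf k)).IsIntegralElem (tinv k E) := by
  rw [← WA_phi_X (k := k) (E := E)]
  exact RingHom.isIntegralElem_map _

theorem WA_tinv_pow (n : ℕ) :
    ((algebraMap (RatFunc k) E).comp (pInf k)).IsIntegralElem (tinv k E ^ n) := by
  rw [← WA_phi_X (k := k) (E := E), ← map_pow]
  exact RingHom.isIntegralElem_map _

/-- `1 / t` is integral over `k[1/t]`. -/
theorem LM.mono {m n : ℕ} (h : m ≤ n) {b : E} (hb : LM (k := k) m b) : LM (k := k) n b := by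
  refine ⟨hb.1, ?_⟩
  obtain ⟨d, rfl⟩ := Nat.exists_eq_add_of_le h
  rw [pow_add, ← mul_assoc]
  exact RingHom.IsIntegralElem.mul _ hb.2 (WA_tinv_pow d)

/-- `τ` fixes `k[t]` and `k[1/t]`. -/
theorem LM.aut {m : ℕ} {b : E} (hb : LM (k := k) m b) (τ : E ≃ₐ[RatFunc k] E) :
    LM (k := k) m (τ b) := by
  constructor
  · exact hb.1.map (τ.restrictScalars k[X])
  · obtain ⟨p, hp, h⟩ := hb.2
    refine ⟨p, hp, ?_⟩
    have h1 := congrArg τ h
    rw [map_zero] at h1
    have h2 : τ (eval₂ ((algebraMap (RatFunc k) E).comp (pInf k)) (b * tinv k E ^ m) p) =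
        eval₂ ((τ : E →+* E).comp ((algebraMap (RatFunc k) E).comp (pInf k)))
          (τ (b * tinv k E ^ m)) p := by
      exact Polynomial.hom_eval₂ p _ (τ : E →+* E) _
    rw [h2] at h1
    have h3 : (τ : E →+* E).comp ((algebraMap (RatFunc k) E).comp (pInf k)) =
        (algebraMap (RatFunc k) E).comp (pInf k) := by
      ext x
      · simp
      · simp
    have h4 : τ (b * tinv k E ^ m) = τ b * tinv k E ^ m := by
      rw [map_mul, map_pow]
      congr 2
      exact τ.commutes _
    rw [h3, h4] at h1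
    exact h1

/-- `f(t) / t ^ m` is a polynomial in `1/t`. -/
theorem LM.poly {m : ℕ} {f : k[X]} (hf : f.natDegree ≤ m) : LM (k := k) m (algebraMap k[X] E f) := by
  refine ⟨isIntegral_algebraMap, ?_⟩
  rw [← WA_reflect' hf]
  exact RingHom.isIntegralElem_map _

/-- `x / t ^ D` is a root of a monic polynomial over `k[1/t]`: the coefficient of `x ^ j`, `j < N`, is
`c_j (t) / t ^ (D (N - j))`, `deg c_j ≤ D`. -/
theorem LM.root {D : ℕ} {R : k[X][X]} (hm : R.Monic) (hD : ∀ j, (R.coeff j).natDegree ≤ D) {x : E}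
    (hx : eval₂ (algebraMap k[X] E) x R = 0) : LM (k := k) D x := by
  refine ⟨⟨R, hm, hx⟩, ?_⟩
  set N := R.natDegree with hN
  set φ := (algebraMap (RatFunc k) E).comp (pInf k) with hφ
  let q : k[X][X] := ∑ j ∈ Finset.range N, C (reflect (D * (N - j)) (R.coeff j)) * X ^ j
  have hq : q.degree < N := by
    rw [Polynomial.degree_lt_iff_coeff_zero]
    intro m hm'
    simp only [q, finsetSum_coeff, coeff_C_mul_X_pow]
    refine Finset.sum_eq_zero fun j hj => ?_
    rw [Finset.mem_range] at hj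
    rw [if_neg (by omega)]
  refine ⟨X ^ N + q, monic_X_pow_add hq, ?_⟩
  rw [eval₂_add, eval₂_pow, eval₂_X]
  have h1 : eval₂ φ (x * tinv k E ^ D) q =
      ∑ j ∈ Finset.range N, (algebraMap k[X] E (R.coeff j) * x ^ j) * tinv k E ^ (D * N) := by
    simp only [q]
    rw [eval₂_finsetSum]
    refine Finset.sum_congr rfl fun j hj => ?_
    rw [Finset.mem_range] at hj
    rw [eval₂_mul, eval₂_C, eval₂_pow, eval₂_X, hφ, WA_reflect' (E := E) (m := D * (N - j))]
    · have h2 : D * N = D * (N - j) + D * j := by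
        rw [← Nat.mul_add]
        congr 1
        omega
      rw [h2, pow_add, mul_pow, ← pow_mul]
      ring
    · refine (hD j).trans ?_
      exact Nat.le_mul_of_pos_right D (by omega)
  rw [h1, mul_pow, ← pow_mul, ← Finset.sum_mul, ← add_mul]
  have h3 : x ^ N + ∑ j ∈ Finset.range N, algebraMap k[X] E (R.coeff j) * x ^ j = 0 := by
    rw [← hx, eval₂_eq_sum_range, Finset.sum_range_succ, ← hN, add_comm]
    congr 1
    have : R.coeff N = 1 := hm
    rw [this, map_one, one_mul]
  rw [h3, zero_mul]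

/-- An element of `k(t)` integral over `k[t]` is a polynomial; if `u / t ^ m` is integral over `k[1/t]` its
degree is at most `m` (the valuation at infinity: `FunctionField.inftyValuation`, or `RatFunc.intDegree`:
an element of positive degree is not integral over `k[1/t]`). -/
theorem LM.down {m : ℕ} {u : RatFunc k} (hu : LM (k := k) m (algebraMap (RatFunc k) E u)) :
    ∃ f : k[X], f.natDegree ≤ m ∧ u = algebraMap k[X] (RatFunc k) f := by
  classical
  have hinj : Function.Injective (algebraMap (RatFunc k) E) := (algebraMap (RatFunc k) E).injective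
  have h1 : IsIntegral k[X] u := (isIntegral_algebraMap_iff hinj).1 hu.1
  obtain ⟨f, hf⟩ := IsIntegrallyClosed.isIntegral_iff.1 h1
  refine ⟨f, ?_, hf.symm⟩
  by_cases hf0 : f = 0
  · rw [hf0, natDegree_zero]; exact Nat.zero_le _
  have h2 : (pInf k).IsIntegralElem (u * (RatFunc.X)⁻¹ ^ m) := by
    obtain ⟨p, hp, h⟩ := hu.2
    refine ⟨p, hp, hinj ?_⟩
    rw [map_zero, Polynomial.hom_eval₂, map_mul, map_pow]
    exact h
  let v := RatFunc.inftyValuation k
  let A := v.valuationSubring
  have hA : ∀ c : k[X], pInf k c ∈ A := by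
    intro c
    show eval₂ RatFunc.C (RatFunc.X)⁻¹ c ∈ A
    rw [eval₂_eq_sum_range]
    refine sum_mem fun i _ => mul_mem ?_ (pow_mem ?_ _)
    · rw [Valuation.mem_valuationSubring_iff]
      by_cases hc : c.coeff i = 0
      · rw [hc, map_zero, map_zero]
        exact zero_le
      · rw [RatFunc.inftyValuation.C k hc]
    · rw [Valuation.mem_valuationSubring_iff]
      have h4 := RatFunc.inftyValuation.X_inv k
      rw [one_div] at h4
      show v (RatFunc.X)⁻¹ ≤ 1
      rw [h4, ← WithZero.exp_zero, WithZero.exp_le_exp]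
      omega
  let g : k[X] →+* A := (pInf k).codRestrict A.toSubring hA
  have h3 : IsIntegral A (u * (RatFunc.X)⁻¹ ^ m) := by
    have : (algebraMap A (RatFunc k)).comp g = pInf k := by
      ext x <;> rfl
    rw [← this] at h2
    exact RingHom.IsIntegralElem.of_comp h2
  obtain ⟨a, ha⟩ := IsIntegrallyClosed.isIntegral_iff.1 h3
  have h5 : v (u * (RatFunc.X)⁻¹ ^ m) ≤ 1 := by
    rw [← ha]
    exact (Valuation.mem_valuationSubring_iff v _).1 a.2
  have h6 : v u = WithZero.exp (f.natDegree : ℤ) := by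
    rw [← hf]
    exact RatFunc.inftyValuation.polynomial k hf0
  have h7 : v (RatFunc.X)⁻¹ = WithZero.exp (-1 : ℤ) := by
    have h4 := RatFunc.inftyValuation.X_inv k
    rw [one_div] at h4
    exact h4
  rw [map_mul, map_pow, h6, h7, ← WithZero.exp_nsmul, ← WithZero.exp_add, ← WithZero.exp_zero,
    WithZero.exp_le_exp, nsmul_eq_mul] at h5
  omega

/-- The norm. -/
theorem LM.norm [FiniteDimensional (RatFunc k) E] [IsGalois (RatFunc k) E] {m : ℕ} {b : E}
    (hb : LM (k := k) m b) (h0 : b ≠ 0) :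
    ∃ f : k[X], f ≠ 0 ∧ f.natDegree ≤ Module.finrank (RatFunc k) E * m ∧
      algebraMap k[X] E f = ∏ τ : E ≃ₐ[RatFunc k] E, τ b := by
  classical
  have h1 : ∀ s : Finset (E ≃ₐ[RatFunc k] E), LM (k := k) (s.card * m) (∏ τ ∈ s, τ b) := by
    intro s
    induction s using Finset.induction_on with
    | empty =>
      rw [Finset.prod_empty, ← map_one (algebraMap k[X] E)]
      exact LM.poly (by simp)
    | insert a s ha ih =>
      rw [Finset.prod_insert ha, Finset.card_insert_of_notMem ha, add_mul, one_mul, add_comm]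
      exact LM.mul (hb.aut a) ih
  have h2 := h1 Finset.univ
  have h3 : (Finset.univ : Finset (E ≃ₐ[RatFunc k] E)).card = Module.finrank (RatFunc k) E := by
    rw [Finset.card_univ, ← Nat.card_eq_fintype_card]
    exact IsGalois.card_aut_eq_finrank _ _
  rw [h3, ← Algebra.norm_eq_prod_automorphisms] at h2
  obtain ⟨f, hf1, hf2⟩ := LM.down h2
  refine ⟨f, ?_, hf1, ?_⟩
  · rintro rfl
    rw [map_zero] at hf2
    exact h0 (Algebra.norm_eq_zero_iff.1 hf2)
  · rw [IsScalarTower.algebraMap_apply k[X] (RatFunc k) E, ← hf2,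
      Algebra.norm_eq_prod_automorphisms]

end MPb197b4W
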