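import Pool.Agent.Lib.MP_b197b4_ntW.WDefs

/-!
# Part W, leaf WB: the local embeddings
-/

set_option autoImplicit false

noncomputable section

namespace MPb197b4W

open Polynomial

variable {k : Type} [Field k] {E : Type} [Field E] [Algebra (RatFunc k) E] [Algebra k[X] E]
  [IsScalarTower k[X] (RatFunc k) E]

theorem WB_atPt (t : k) (f : k[X]) :
    atPt t f = ((f.comp (C t + X) : k[X]) : PowerSeries k) := by
  have h : atPt t = (Polynomial.coeToPowerSeries.ringHom).comp (compRingHom (C t + X)) := by
    refine Polynomial.ringHom_ext (fun a => ?_) ?_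
    · simp [atPt]
    · simp [atPt]
  rw [h]
  rfl

theorem WB_comp (t : k) (f : k[X]) : (f.comp (C t + X)).comp (X - C t) = f := by
  rw [comp_assoc, add_comp, C_comp, X_comp, add_sub_cancel, comp_X]

/-- `f(t + X)`: divisible by `X ^ n` iff `(X - t) ^ n` divides `f`. -/
theorem atPt_dvd {t : k} {f : k[X]} {n : ℕ} (h : (PowerSeries.X : PowerSeries k) ^ n ∣ atPt t f) :
    (X - C t) ^ n ∣ f := by
  rw [WB_atPt, PowerSeries.X_pow_dvd_iff] at h
  have h1 : (X : k[X]) ^ n ∣ f.comp (C t + X) := by
    rw [X_pow_dvd_iff]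
    intro d hd
    rw [← Polynomial.coeff_coe]
    exact h d hd
  obtain ⟨g, hg⟩ := h1
  refine ⟨g.comp (X - C t), ?_⟩
  conv_lhs => rw [← WB_comp t f, hg]
  rw [mul_comp, pow_comp, X_comp]

theorem atPt_injective (t : k) : Function.Injective (atPt t) := by
  intro f g h
  rw [WB_atPt, WB_atPt] at h
  rw [← WB_comp t f, Polynomial.coe_injective k h, WB_comp]

theorem WB_const (t : k) :
    (PowerSeries.constantCoeff (R := k)).comp (atPt t) = evalRingHom t := by
  refine Polynomial.ringHom_ext (fun a => ?_) ?_
  · simp [atPt]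
  · simp [atPt]

theorem WB_eval (t a : k) (R : k[X][X]) (s : PowerSeries k)
    (hs : PowerSeries.constantCoeff s = a) :
    PowerSeries.constantCoeff ((R.map (atPt t)).eval s) = (spec R t).eval a := by
  rw [← eval₂_at_apply, eval₂_map, WB_const, hs, spec, eval_map]

theorem WB_root [IsAlgClosed k] {R : k[X][X]} (hm : R.Monic) {t : k}
    (ht : (spec R t).Separable) {a : k} (ha : (spec R t).eval a = 0) :
    ∃ s : PowerSeries k, (R.map (atPt t)).IsRoot s ∧ PowerSeries.constantCoeff s = a := by
  have hC : PowerSeries.constantCoeff (PowerSeries.C a) = a := PowerSeries.constantCoeff_C a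
  have h1 : (R.map (atPt t)).eval (PowerSeries.C a) ∈
      (Ideal.span {PowerSeries.X} : Ideal (PowerSeries k)) := by
    rw [Ideal.mem_span_singleton, PowerSeries.X_dvd_iff, WB_eval t a R _ hC, ha]
  have h2 : IsUnit ((derivative (R.map (atPt t))).eval (PowerSeries.C a)) := by
    rw [PowerSeries.isUnit_iff_constantCoeff, derivative_map, WB_eval t a _ _ hC, isUnit_iff_ne_zero]
    have h3 : spec (derivative R) t = derivative (spec R t) := by
      rw [spec, spec, derivative_map]
    rw [h3]
    have h4 := ht.aeval_derivative_ne_zero (x := a) (by rw [coe_aeval_eq_eval]; exact ha)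
    rwa [coe_aeval_eq_eval] at h4
  obtain ⟨s, hs, hs2⟩ := HenselianRing.is_henselian (I := Ideal.span {PowerSeries.X})
    (R.map (atPt t)) (hm.map _) (PowerSeries.C a) h1 (h2.map _)
  refine ⟨s, hs, ?_⟩
  rw [Ideal.mem_span_singleton, PowerSeries.X_dvd_iff, map_sub, hC, sub_eq_zero] at hs2
  exact hs2

theorem WB_splits [IsAlgClosed k] {R : k[X][X]} (hm : R.Monic) {t : k}
    (ht : (spec R t).Separable) : (R.map (atPt t)).Splits := by
  classical
  rw [splits_iff_card_roots]
  refine le_antisymm (card_roots' _) ?_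
  have hN : (R.map (atPt t)).natDegree = (spec R t).roots.toFinset.card := by
    rw [hm.natDegree_map, Multiset.toFinset_card_of_nodup (nodup_roots ht),
      splits_iff_card_roots.1 (IsAlgClosed.splits (spec R t)), spec, hm.natDegree_map]
  rw [hN]
  refine le_trans ?_ (Multiset.toFinset_card_le _)
  have h1 : ∀ a ∈ (spec R t).roots.toFinset,
      ∃ s : PowerSeries k, (R.map (atPt t)).IsRoot s ∧ PowerSeries.constantCoeff s = a := by
    intro a ha
    rw [Multiset.mem_toFinset] at ha
    exact WB_root hm ht (isRoot_of_mem_roots ha)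
  choose s hs hs2 using h1
  refine Finset.card_le_card_of_injOn (fun a => if h : a ∈ (spec R t).roots.toFinset then s a h else 0)
    ?_ ?_
  · intro a ha
    have ha' : a ∈ (spec R t).roots.toFinset := ha
    beta_reduce
    rw [dif_pos ha', Finset.mem_coe, Multiset.mem_toFinset, mem_roots (hm.map _).ne_zero]
    exact hs a ha'
  · intro a ha b hb hab
    have ha' : a ∈ (spec R t).roots.toFinset := ha
    have hb' : b ∈ (spec R t).roots.toFinset := hb
    simp only at hab
    rw [dif_pos ha', dif_pos hb'] at hab
    rw [← hs2 a ha', ← hs2 b hb', hab]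

theorem WB_lift {K L F : Type*} [Field K] [Field L] [Field F] [Algebra K L] (f : K[X])
    [IsSplittingField K L f] (i : K →+* F) (h : (f.map i).Splits) :
    ∃ ψ : L →+* F, ∀ x, ψ (algebraMap K L x) = i x := by
  let := i.toAlgebra
  exact ⟨(IsSplittingField.lift L f h).toRingHom, fun x =>
    (IsSplittingField.lift L f h).commutes x⟩

/-- Hensel's lemma: the `N` different roots of `R_t` in the algebraically closed field `k` lift to roots in
`k[[X]]` of the polynomial `R(t + X, x)` (`HenselianRing` from the instance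
`IsAdicComplete (span {X}) (PowerSeries k)`). So it splits over `LaurentSeries k`, and the homomorphism
`RatFunc k → LaurentSeries k`, `t ↦ t + X`, extends to the splitting field `E`
(`Polynomial.IsSplittingField.lift`). -/
theorem exists_local [IsAlgClosed k] {R : k[X][X]} (hm : R.Monic)
    [IsSplittingField (RatFunc k) E (R.map (algebraMap k[X] (RatFunc k)))] {t : k}
    (ht : (spec R t).Separable) :
    ∃ ψ : E →+* LaurentSeries k, ∀ f : k[X], ψ (algebraMap k[X] E f) = (atPt t f : LaurentSeries k) := by
  have hφ : Function.Injective ((algebraMap (PowerSeries k) (LaurentSeries k)).comp (atPt t)) := by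
    rw [RingHom.coe_comp]
    exact (FaithfulSMul.algebraMap_injective (PowerSeries k) (LaurentSeries k)).comp
      (atPt_injective t)
  have hi : ∀ f : k[X], IsFractionRing.lift (K := RatFunc k) hφ (algebraMap k[X] (RatFunc k) f) =
      algebraMap (PowerSeries k) (LaurentSeries k) (atPt t f) := fun f =>
    IsFractionRing.lift_algebraMap hφ f
  have hs : ((R.map (algebraMap k[X] (RatFunc k))).map
      (IsFractionRing.lift (K := RatFunc k) hφ)).Splits := by
    have h1 : (R.map (algebraMap k[X] (RatFunc k))).map
        (IsFractionRing.lift (K := RatFunc k) hφ) =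
        (R.map (atPt t)).map (algebraMap (PowerSeries k) (LaurentSeries k)) := by
      rw [Polynomial.map_map, Polynomial.map_map]
      congr 1
      exact RingHom.ext hi
    rw [h1]
    exact (WB_splits hm ht).map _
  obtain ⟨ψ, hψ⟩ := WB_lift (L := E) _ _ hs
  refine ⟨ψ, fun f => ?_⟩
  rw [IsScalarTower.algebraMap_apply k[X] (RatFunc k) E, hψ, hi]
  rfl

/-- `k[[X]]` is integrally closed. -/
theorem local_integral {t : k} {ψ : E →+* LaurentSeries k}
    (hψ : ∀ f : k[X], ψ (algebraMap k[X] E f) = (atPt t f : LaurentSeries k)) {b : E}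
    (hb : IsIntegral k[X] b) : ∃ g : PowerSeries k, ψ b = (g : LaurentSeries k) := by
  obtain ⟨p, hp, hpb⟩ := hb
  have h1 : IsIntegral (PowerSeries k) (ψ b) := by
    refine ⟨p.map (atPt t), hp.map _, ?_⟩
    rw [eval₂_map]
    have h2 : (algebraMap (PowerSeries k) (LaurentSeries k)).comp (atPt t) =
        ψ.comp (algebraMap k[X] E) := RingHom.ext fun f => (hψ f).symm
    rw [h2, ← hom_eval₂, hpb, map_zero]
  obtain ⟨g, hg⟩ := IsIntegrallyClosed.algebraMap_eq_of_integral h1
  exact ⟨g, hg.symm⟩

end MPb197b4W
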