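import Pool.Agent.Lib.MP_b197b4_ntW.WDefs

/-!
# Part W, leaf WC: the box monomials
-/

set_option autoImplicit false

noncomputable section

namespace MPb197b4W

theorem WC_prod (n : ℕ) : ∏ i : Fin n, (n - (i : ℕ)) = n.factorial := by
  induction n with
  | zero => simp
  | succ n ih =>
    rw [Fin.prod_univ_succ, Nat.factorial_succ, ← ih]
    congr 1
    refine Finset.prod_congr rfl fun i _ => ?_
    rw [Fin.val_succ]
    omega

theorem card_box (n : ℕ) : (box n).card = n.factorial := by
  unfold box
  rw [Fintype.card_piFinset, ← WC_prod n]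
  exact Finset.prod_congr rfl fun i _ => Finset.card_range _

theorem WC_mem_box {n : ℕ} {α : Fin n → ℕ} : α ∈ box n ↔ ∀ i : Fin n, α i < n - (i : ℕ) := by
  unfold box
  simp only [Fintype.mem_piFinset, Finset.mem_range]

/-- `∑ α i ≤ n ^ 2`. -/
theorem box_sum_le {n : ℕ} {α : Fin n → ℕ} (hα : α ∈ box n) : ∑ i, α i ≤ n ^ 2 := by
  have h : ∀ i ∈ (Finset.univ : Finset (Fin n)), α i ≤ n := fun i _ => by
    have := WC_mem_box.1 hα i
    omega
  have h2 := Finset.sum_le_card_nsmul Finset.univ α n h
  rw [Finset.card_univ, Fintype.card_fin, smul_eq_mul] at h2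
  rw [pow_two]
  exact h2

theorem WC_cons_mem {n : ℕ} {j : ℕ} {γ : Fin n → ℕ} (hj : j < n + 1) (hγ : γ ∈ box n) :
    (Fin.cons j γ : Fin (n + 1) → ℕ) ∈ box (n + 1) := by
  rw [WC_mem_box]
  intro i
  refine Fin.cases ?_ (fun i => ?_) i
  · simpa using hj
  · have := WC_mem_box.1 hγ i
    rw [Fin.cons_succ, Fin.val_succ]
    omega

theorem WC_tail_mem {n : ℕ} {α : Fin (n + 1) → ℕ} (hα : α ∈ box (n + 1)) :
    Fin.tail α ∈ box n := by
  rw [WC_mem_box]
  intro i
  have := WC_mem_box.1 hα i.succ
  rw [Fin.val_succ] at this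
  show α i.succ < _
  omega

theorem WC_sum_box {M : Type*} [AddCommMonoid M] (n : ℕ) (f : (Fin (n + 1) → ℕ) → M) :
    ∑ α ∈ box (n + 1), f α = ∑ γ ∈ box n, ∑ j ∈ Finset.range (n + 1), f (Fin.cons j γ) := by
  rw [← Finset.sum_product']
  refine Finset.sum_nbij' (fun α => (Fin.tail α, α 0)) (fun p => Fin.cons p.2 p.1) ?_ ?_ ?_ ?_ ?_
  · intro α hα
    rw [Finset.mem_product]
    refine ⟨WC_tail_mem hα, ?_⟩
    rw [Finset.mem_range]
    simpa using WC_mem_box.1 hα 0
  · intro p hp
    rw [Finset.mem_product, Finset.mem_range] at hp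
    exact WC_cons_mem hp.2 hp.1
  · intro α _
    exact Fin.cons_self_tail α
  · intro p _
    simp
  · intro α _
    simp only [Fin.cons_self_tail]

/-- A polynomial with exponents in the box which vanishes at all the orderings of `n` different elements
`s` of a field is zero. Induction on `n`: for `a ∈ s` the polynomial `P(a, ..)` has exponents in `box n` and
vanishes at the orderings of `s \ {a}`; so for every `γ ∈ box n` the polynomial `∑_j c (j, γ) Y ^ j` of degree
`< n + 1` vanishes at the `n + 1` elements of `s`. -/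
theorem box_indep_aux {L : Type*} [Field L] (n : ℕ) : ∀ (s : Finset L) (c : (Fin n → ℕ) → L),
    s.card = n → (∀ y : Fin n → L, Function.Injective y → (∀ i, y i ∈ s) →
      ∑ α ∈ box n, c α * ∏ i, y i ^ α i = 0) → ∀ α ∈ box n, c α = 0 := by
  classical
  induction n with
  | zero =>
    intro s c _ h α hα
    have h0 := h Fin.elim0 (fun i => i.elim0) (fun i => i.elim0)
    have hb : box 0 = {α} := by
      ext β
      rw [Finset.mem_singleton]
      constructor
      · intro _
        exact Subsingleton.elim _ _
      · rintro rfl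
        exact hα
    rw [hb, Finset.sum_singleton] at h0
    simpa using h0
  | succ n ih =>
    intro s c hs h α hα
    have key : ∀ a ∈ s, ∀ γ ∈ box n,
        ∑ j ∈ Finset.range (n + 1), c (Fin.cons j γ) * a ^ j = 0 := by
      intro a ha
      refine ih (s.erase a) (fun γ => ∑ j ∈ Finset.range (n + 1), c (Fin.cons j γ) * a ^ j)
        ?_ ?_
      · rw [Finset.card_erase_of_mem ha, hs]
        rfl
      · intro y hy hys
        have h1 := h (Fin.cons a y) ?_ ?_
        · rw [WC_sum_box] at h1
          rw [← h1]
          refine Finset.sum_congr rfl fun γ _ => ?_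
          rw [Finset.sum_mul]
          refine Finset.sum_congr rfl fun j _ => ?_
          rw [Fin.prod_univ_succ]
          simp only [Fin.cons_zero, Fin.cons_succ]
          ring
        · rw [Fin.cons_injective_iff]
          refine ⟨?_, hy⟩
          rintro ⟨i, hi⟩
          exact (Finset.mem_erase.1 (hys i)).1 hi
        · intro i
          refine Fin.cases ?_ (fun i => ?_) i
          · exact ha
          · exact (Finset.mem_erase.1 (hys i)).2
    -- the polynomial in `Y`
    set P : Polynomial L := ∑ j ∈ Finset.range (n + 1),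
      Polynomial.C (c (Fin.cons j (Fin.tail α))) * Polynomial.X ^ j with hP
    have hP0 : P = 0 := by
      refine Polynomial.eq_zero_of_natDegree_lt_card_of_eval_eq_zero' P s ?_ ?_
      · intro a ha
        have := key a ha (Fin.tail α) (WC_tail_mem hα)
        rw [hP, Polynomial.eval_finsetSum, ← this]
        refine Finset.sum_congr rfl fun j _ => ?_
        rw [Polynomial.eval_mul, Polynomial.eval_C, Polynomial.eval_pow, Polynomial.eval_X]
      · rw [hs]
        have : P.natDegree ≤ n := by
          rw [hP]
          refine Polynomial.natDegree_sum_le_of_forall_le _ _ fun j hj => ?_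
          refine (Polynomial.natDegree_C_mul_X_pow_le _ _).trans ?_
          rw [Finset.mem_range] at hj
          omega
        omega
    have hc : P.coeff (α 0) = c (Fin.cons (α 0) (Fin.tail α)) := by
      rw [hP, Polynomial.finsetSum_coeff]
      rw [Finset.sum_eq_single (α 0)]
      · rw [Polynomial.coeff_C_mul_X_pow, if_pos rfl]
      · intro j _ hj
        rw [Polynomial.coeff_C_mul_X_pow, if_neg (Ne.symm hj)]
      · intro hj
        exfalso
        apply hj
        rw [Finset.mem_range]
        simpa using WC_mem_box.1 hα 0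
    rw [Fin.cons_self_tail] at hc
    rw [← hc, hP0, Polynomial.coeff_zero]

/-- The box monomials in `x 0, .., x (n - 1)` are linearly independent over `K` if all the permutations of
the `x i` are realised by automorphisms over `K`. -/
theorem box_indep {K E : Type*} [Field K] [Field E] [Algebra K E] {n : ℕ} {x : Fin n → E}
    (hx : Function.Injective x) (τ : Equiv.Perm (Fin n) → (E ≃ₐ[K] E))
    (hτ : ∀ σ i, τ σ (x i) = x (σ i)) :
    LinearIndependent K fun α : box n => ∏ i, x i ^ (α : Fin n → ℕ) i := by
  classical
  rw [Fintype.linearIndependent_iff]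
  intro g hg α
  set c : (Fin n → ℕ) → E := fun α => if h : α ∈ box n then algebraMap K E (g ⟨α, h⟩) else 0
    with hc
  have hcα : ∀ α : box n, c α = algebraMap K E (g α) := by
    intro α
    rw [hc]
    simp only [α.2, dif_pos]
  have hsum : ∀ σ : Equiv.Perm (Fin n), ∑ α ∈ box n, c α * ∏ i, x (σ i) ^ α i = 0 := by
    intro σ
    have h1 := congrArg (τ σ) hg
    rw [map_sum, map_zero] at h1
    rw [← Finset.sum_coe_sort, ← h1]
    refine Finset.sum_congr rfl fun α _ => ?_
    rw [hcα, Algebra.smul_def, map_mul, AlgEquiv.commutes, map_prod]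
    congr 1
    refine Finset.prod_congr rfl fun i _ => ?_
    rw [map_pow, hτ]
  have hmain := box_indep_aux n (Finset.univ.image x) c
    (by rw [Finset.card_image_of_injective _ hx, Finset.card_univ, Fintype.card_fin]) ?_
    (α : Fin n → ℕ) α.2
  · rw [hcα] at hmain
    exact (map_eq_zero _).1 hmain
  · intro y hy hys
    have hch : ∀ i, ∃ j, x j = y i := by
      intro i
      obtain ⟨j, -, hj⟩ := Finset.mem_image.1 (hys i)
      exact ⟨j, hj⟩
    choose σ hσ using hch
    have hσi : Function.Injective σ := by
      intro i j hij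
      apply hy
      rw [← hσ i, ← hσ j, hij]
    have hσb : Function.Bijective σ := Finite.injective_iff_bijective.1 hσi
    have := hsum (Equiv.ofBijective σ hσb)
    rw [← this]
    refine Finset.sum_congr rfl fun α _ => ?_
    congr 1
    refine Finset.prod_congr rfl fun i _ => ?_
    rw [Equiv.ofBijective_apply, hσ]

/-- The monomials `t ^ a * x ^ α` are linearly independent over `k` (`E` over `k(t)`). -/
theorem box_indep_t {k : Type} [Field k] {E : Type} [Field E] [Algebra (RatFunc k) E] {n : ℕ}
    {x : Fin n → E} (h : LinearIndependent (RatFunc k) fun α : box n => ∏ i, x i ^ (α : Fin n → ℕ) i)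
    (z : (Fin n → ℕ) → ℕ → k) (d : ℕ)
    (hz : ∑ α ∈ box n, ∑ a ∈ Finset.range d, algebraMap (RatFunc k) E (RatFunc.C (z α a)) *
      (algebraMap (RatFunc k) E RatFunc.X ^ a * ∏ i, x i ^ α i) = 0) :
    ∀ α ∈ box n, ∀ a < d, z α a = 0 := by
  classical
  intro α hα a ha
  rw [Fintype.linearIndependent_iff] at h
  have h1 := h (fun α => ∑ a ∈ Finset.range d, RatFunc.C (z α a) * RatFunc.X ^ a) ?_ ⟨α, hα⟩
  · have h2 : algebraMap (Polynomial k) (RatFunc k)
        (∑ a ∈ Finset.range d, Polynomial.C (z α a) * Polynomial.X ^ a) = 0 := by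
      rw [← h1, map_sum]
      refine Finset.sum_congr rfl fun a _ => ?_
      rw [map_mul, map_pow, RatFunc.algebraMap_C, RatFunc.algebraMap_X]
    have h3 := (map_eq_zero_iff _ (RatFunc.algebraMap_injective k)).1 h2
    have h4 := congrArg (fun P => Polynomial.coeff P a) h3
    simp only [Polynomial.finsetSum_coeff, Polynomial.coeff_C_mul_X_pow,
      Polynomial.coeff_zero] at h4
    rw [Finset.sum_eq_single a] at h4
    · simpa using h4
    · intro j _ hj
      rw [if_neg (Ne.symm hj)]
    · intro hj
      exact absurd (Finset.mem_range.2 ha) hj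
  · rw [← hz, ← Finset.sum_coe_sort (box n)]
    refine Finset.sum_congr rfl fun α _ => ?_
    rw [Algebra.smul_def, map_sum, Finset.sum_mul]
    refine Finset.sum_congr rfl fun a _ => ?_
    rw [map_mul, map_pow]
    ring

end MPb197b4W
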