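import Pool.Agent.Lib.MP_b197b4_ntW.WDefs

/-!
# Part W, leaf WD: power series
-/

set_option autoImplicit false

noncomputable section

namespace MPb197b4W

open PowerSeries

variable {k : Type} [Field k]

theorem WD_orders (d : ℕ) : ∀ (W : Submodule k (PowerSeries k)) [FiniteDimensional k W],
    Module.finrank k W = d →
    ∃ (n : ℕ) (w : Fin n → PowerSeries k) (o : Fin n → ℕ), StrictMono o ∧
      (∀ j, (w j).order = o j) ∧ Submodule.span k (Set.range w) = W := by
  classical
  induction d using Nat.strong_induction_on with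
  | _ d ih =>
    intro W _ hd
    by_cases hW : W = ⊥
    · refine ⟨0, Fin.elim0, Fin.elim0, fun i => i.elim0, fun i => i.elim0, ?_⟩
      rw [hW, Set.range_eq_empty, Submodule.span_empty]
    · obtain ⟨x0, hx0, hx0'⟩ := Submodule.exists_mem_ne_zero_of_ne_bot hW
      have hex : ∃ m : ℕ, ∃ x ∈ W, x.order = m := by
        have h1 : x0.order ≠ ⊤ := fun h => hx0' (order_eq_top.1 h)
        obtain ⟨m, hm⟩ := ENat.ne_top_iff_exists.1 h1
        exact ⟨m, x0, hx0, hm.symm⟩
      obtain ⟨w0, hw0, hw0o⟩ := Nat.find_spec hex
      have hmin : ∀ x ∈ W, x ≠ 0 → ((Nat.find hex : ℕ) : ℕ∞) ≤ x.order := by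
        intro x hx hx'
        have h1 : x.order ≠ ⊤ := fun h => hx' (order_eq_top.1 h)
        obtain ⟨m, hm⟩ := ENat.ne_top_iff_exists.1 h1
        rw [← hm]
        exact_mod_cast Nat.find_min' hex ⟨x, hx, hm.symm⟩
      set o0 := Nat.find hex with ho0
      have hc0 : coeff o0 w0 ≠ 0 := (order_eq_nat.1 hw0o).1
      let W' : Submodule k (PowerSeries k) := W ⊓ LinearMap.ker (coeff (R := k) o0)
      have hlt : W' < W := by
        refine lt_of_le_of_ne inf_le_left fun h => hc0 ?_
        have : w0 ∈ W' := h ▸ hw0
        exact this.2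
      have : FiniteDimensional k W' := Submodule.finiteDimensional_of_le hlt.le
      have hfr : Module.finrank k W' < d := hd ▸ Submodule.finrank_lt_finrank_of_lt hlt
      obtain ⟨n, w, o, h1, h2, h3⟩ := ih _ hfr W' rfl
      have hwW : ∀ j, w j ∈ W' := fun j => h3 ▸ Submodule.subset_span ⟨j, rfl⟩
      have hgt : ∀ j, o0 < o j := by
        intro j
        have h4 : w j ≠ 0 := by
          intro h
          have := h2 j
          rw [h, order_zero] at this
          exact ENat.natCast_ne_top _ this.symm
        have h5 := hmin (w j) (hwW j).1 h4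
        rw [h2 j] at h5
        have h6 : o0 ≤ o j := by exact_mod_cast h5
        refine lt_of_le_of_ne h6 fun h7 => ?_
        have h8 : coeff (o j) (w j) ≠ 0 := (order_eq_nat.1 (h2 j)).1
        rw [← h7] at h8
        exact h8 (hwW j).2
      refine ⟨n + 1, Fin.cons w0 w, Fin.cons o0 o, ?_, ?_, ?_⟩
      · intro i j hij
        rcases Fin.eq_zero_or_eq_succ i with rfl | ⟨i', rfl⟩
        · rcases Fin.eq_zero_or_eq_succ j with rfl | ⟨j', rfl⟩
          · exact absurd hij (lt_irrefl _)
          · exact hgt j'
        · rcases Fin.eq_zero_or_eq_succ j with rfl | ⟨j', rfl⟩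
          · exact absurd hij (Fin.not_lt_zero _)
          · exact h1 (Fin.succ_lt_succ_iff.1 hij)
      · intro j
        refine Fin.cases ?_ ?_ j
        · exact hw0o
        · intro j
          exact h2 j
      · apply le_antisymm
        · rw [Submodule.span_le]
          rintro _ ⟨j, rfl⟩
          refine Fin.cases ?_ ?_ j
          · exact hw0
          · intro j
            exact (hwW j).1
        · intro x hx
          have h4 : x - (coeff o0 x / coeff o0 w0) • w0 ∈ W' := by
            refine ⟨W.sub_mem hx (W.smul_mem _ hw0), ?_⟩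
            show coeff o0 (x - (coeff o0 x / coeff o0 w0) • w0) = 0
            rw [map_sub, map_smul, smul_eq_mul, div_mul_cancel₀ _ hc0, sub_self]
          have h5 : W' ≤ Submodule.span k
              (Set.range (Fin.cons w0 w : Fin (n + 1) → PowerSeries k)) := by
            rw [← h3, Submodule.span_le]
            rintro _ ⟨j, rfl⟩
            exact Submodule.subset_span ⟨j.succ, rfl⟩
          have h6 : w0 ∈ Submodule.span k
              (Set.range (Fin.cons w0 w : Fin (n + 1) → PowerSeries k)) :=
            Submodule.subset_span ⟨0, rfl⟩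
          have h7 := Submodule.add_mem _ (h5 h4)
            (Submodule.smul_mem _ (coeff o0 x / coeff o0 w0) h6)
          rwa [sub_add_cancel] at h7

/-- A finite dimensional space of power series has a basis with different orders. Induction on the
dimension: let `o` be the smallest order of a non zero element `w₀` of `W`; the elements of `W` whose
coefficient at `o` is zero are a subspace of smaller dimension, its non zero elements have order `> o`. -/
theorem exists_orders (W : Submodule k (PowerSeries k)) [FiniteDimensional k W] :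
    ∃ (n : ℕ) (w : Fin n → PowerSeries k) (o : Fin n → ℕ), StrictMono o ∧
      (∀ j, (w j).order = o j) ∧ Submodule.span k (Set.range w) = W :=
  WD_orders _ W rfl

/-- A sum of power series, those which are not zero having different orders. -/
theorem WD_sum {σ : Type*} [Fintype σ] (f : σ → PowerSeries k)
    (hf : ∀ s t, f s ≠ 0 → f t ≠ 0 → (f s).order = (f t).order → s = t) (h : ∑ s, f s = 0)
    (s : σ) : f s = 0 := by
  classical
  by_contra hs
  have hne : (Finset.univ.filter fun s => f s ≠ 0).Nonempty := ⟨s, by simp [hs]⟩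
  obtain ⟨s0, hs0, hmin⟩ := Finset.exists_min_image _ (fun s => (f s).order) hne
  have hs0' : f s0 ≠ 0 := (Finset.mem_filter.1 hs0).2
  have h1 : (f s0).order ≠ ⊤ := fun h => hs0' (order_eq_top.1 h)
  obtain ⟨m, hm⟩ := ENat.ne_top_iff_exists.1 h1
  have hc : coeff m (f s0) ≠ 0 := (order_eq_nat.1 hm.symm).1
  have h2 := congrArg (coeff m) h
  rw [map_sum, map_zero, Finset.sum_eq_single s0] at h2
  · exact hc h2
  · intro t _ hts
    by_cases ht : f t = 0
    · rw [ht, map_zero]
    · have h3 := hmin t (by simp [ht])
      refine coeff_of_lt_order m (lt_of_le_of_ne (hm ▸ h3) fun h4 => hts ?_)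
      exact hf t s0 ht hs0' (by rw [← h4, hm])
  · intro h3
    exact absurd (Finset.mem_univ _) h3

/-- Let `q = p ^ μ`, `u i` linearly independent over the perfect field `k`, and let all non zero `k`-linear
combinations of the `g i` have order `< q`. If `∑ g i * u i ^ q = 0` then all the `g i` are zero.
Proof: let `γ s` be a basis with different orders of the space spanned by the `g i`,
`g i = ∑_s λ i s ^ q γ s` (`k` is perfect). Then `∑ g i u i ^ q = ∑_s γ s * (∑_i λ i s u i) ^ q`, where the
non zero terms have orders `ord (γ s) + q * ..`, `ord (γ s) < q` different: different orders. So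
`∑_i λ i s u i = 0` for all `s`, hence `λ = 0`. -/
theorem nonvanish [IsAlgClosed k] {p μ : ℕ} [Fact p.Prime] [CharP k p] {ι : Type*} [Fintype ι]
    {u g : ι → PowerSeries k} (hu : LinearIndependent k u)
    (hg : ∀ z : ι → k, (∑ i, z i • g i) = 0 ∨ (∑ i, z i • g i).order < (p ^ μ : ℕ))
    (h : ∑ i, g i * u i ^ p ^ μ = 0) (i : ι) : g i = 0 := by
  classical
  have hp : p.Prime := Fact.out
  have hq : 0 < p ^ μ := pow_pos hp.pos μ
  set q := p ^ μ with hqdef
  have hfin : FiniteDimensional k (Submodule.span k (Set.range g)) :=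
    FiniteDimensional.span_of_finite k (Set.finite_range g)
  obtain ⟨n, γ, o, ho, hγ, hspan⟩ := exists_orders (Submodule.span k (Set.range g))
  -- the orders of `γ s` are less than `q`
  have hoq : ∀ s, o s < q := by
    intro s
    have h1 : γ s ∈ Submodule.span k (Set.range g) := hspan ▸ Submodule.subset_span ⟨s, rfl⟩
    obtain ⟨z, hz⟩ := (Submodule.mem_span_range_iff_exists_fun k).1 h1
    have h2 := hg z
    rw [hz, hγ s] at h2
    rcases h2 with h2 | h2
    · exfalso
      have h3 := hγ s
      rw [h2, order_zero] at h3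
      exact ENat.natCast_ne_top _ h3.symm
    · exact_mod_cast h2
  -- coordinates
  have hc : ∀ i, ∃ c : Fin n → k, ∑ s, c s • γ s = g i := by
    intro i
    have h1 : g i ∈ Submodule.span k (Set.range γ) := hspan ▸ Submodule.subset_span ⟨i, rfl⟩
    exact (Submodule.mem_span_range_iff_exists_fun k).1 h1
  choose c hc using hc
  have hlam : ∀ i s, ∃ z : k, z ^ q = c i s := fun i s => IsAlgClosed.exists_pow_nat_eq _ hq
  choose lam hlam using hlam
  have : CharP (PowerSeries k) p :=
    charP_of_injective_algebraMap (algebraMap k (PowerSeries k)).injective p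
  have hterm : ∀ s, (∑ i, lam i s • u i) ^ q = ∑ i, c i s • u i ^ q := by
    intro s
    rw [hqdef, sum_pow_char_pow]
    refine Finset.sum_congr rfl fun i _ => ?_
    rw [smul_pow, ← hqdef, hlam]
  have hsum : ∑ s, γ s * (∑ i, lam i s • u i) ^ q = 0 := by
    rw [← h]
    calc ∑ s, γ s * (∑ i, lam i s • u i) ^ q = ∑ s, ∑ i, (c i s • γ s) * u i ^ q := by
          refine Finset.sum_congr rfl fun s _ => ?_
          rw [hterm, Finset.mul_sum]
          refine Finset.sum_congr rfl fun i _ => ?_
          rw [mul_smul_comm, smul_mul_assoc]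
      _ = ∑ i, ∑ s, (c i s • γ s) * u i ^ q := Finset.sum_comm
      _ = ∑ i, g i * u i ^ q := by
          refine Finset.sum_congr rfl fun i _ => ?_
          rw [← Finset.sum_mul, hc]
  have hγ0 : ∀ s, γ s ≠ 0 := by
    intro s h1
    have h3 := hγ s
    rw [h1, order_zero] at h3
    exact ENat.natCast_ne_top _ h3.symm
  have hv : ∀ s, ∑ i, lam i s • u i = 0 := by
    intro s
    have h1 := WD_sum (fun s => γ s * (∑ i, lam i s • u i) ^ q) ?_ hsum s
    · rcases mul_eq_zero.1 h1 with h2 | h2
      · exact absurd h2 (hγ0 s)
      · exact pow_eq_zero_iff hq.ne' |>.1 h2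
    · intro s t hs ht hst
      simp only [order_mul, order_pow, hγ] at hst
      have hs' : ∑ i, lam i s • u i ≠ 0 := by
        intro h1
        exact hs (by simp only [h1]; rw [zero_pow hq.ne', mul_zero])
      have ht' : ∑ i, lam i t • u i ≠ 0 := by
        intro h1
        exact ht (by simp only [h1]; rw [zero_pow hq.ne', mul_zero])
      obtain ⟨a, ha⟩ := ENat.ne_top_iff_exists.1 fun h1 => hs' (order_eq_top.1 h1)
      obtain ⟨b, hb⟩ := ENat.ne_top_iff_exists.1 fun h1 => ht' (order_eq_top.1 h1)
      rw [← ha, ← hb] at hst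
      have h2 : o s + q * a = o t + q * b := by
        have : ((o s + q * a : ℕ) : ℕ∞) = ((o t + q * b : ℕ) : ℕ∞) := by
          push_cast
          simpa [nsmul_eq_mul] using hst
        exact_mod_cast this
      apply ho.injective
      have h3 : (o s + q * a) % q = (o t + q * b) % q := by rw [h2]
      rwa [Nat.add_mul_mod_self_left, Nat.add_mul_mod_self_left, Nat.mod_eq_of_lt (hoq s),
        Nat.mod_eq_of_lt (hoq t)] at h3
  have hl : ∀ i s, lam i s = 0 := fun i s =>
    Fintype.linearIndependent_iff.1 hu (fun i => lam i s) (hv s) i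
  rw [← hc i]
  refine Finset.sum_eq_zero fun s _ => ?_
  rw [← hlam i s, hl i s, zero_pow hq.ne', zero_smul]

end MPb197b4W
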