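import Mathlib

/-!
# Part W: definitions

`k` is an algebraically closed field of characteristic `p`, `K = RatFunc k`, `t` the variable, `E` a
finite extension of `K`. `IsIntegral k[X] b`: `b` is integral over `k[t]`.
-/

set_option autoImplicit false

noncomputable section

namespace MPb197b4W

open Polynomial

/-- The homomorphism `k[X] → k(t)`, `X ↦ 1 / t`. -/
def pInf (k : Type) [Field k] : k[X] →+* RatFunc k := eval₂RingHom RatFunc.C (RatFunc.X)⁻¹

variable {k : Type} [Field k] {E : Type} [Field E] [Algebra (RatFunc k) E] [Algebra k[X] E]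

/-- The element `1 / t`. -/
def tinv (k E : Type) [Field k] [Field E] [Algebra (RatFunc k) E] : E :=
  algebraMap (RatFunc k) E (RatFunc.X)⁻¹

/-- `b` is integral over `k[t]` and `b / t ^ m` is integral over `k[1/t]`. -/
def LM (m : ℕ) (b : E) : Prop :=
  IsIntegral k[X] b ∧ ((algebraMap (RatFunc k) E).comp (pInf k)).IsIntegralElem (b * tinv k E ^ m)

/-- The point `t` of the line: the power series ring of `t + X`. -/
def atPt (t : k) : k[X] →+* PowerSeries k := eval₂RingHom (PowerSeries.C) (PowerSeries.C t + PowerSeries.X)

/-- The polynomial `R (t, x)` at `t`. -/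
def spec (R : k[X][X]) (t : k) : k[X] := R.map (evalRingHom t)

/-- `R_t` has `N` different roots, all of them fixed by the `Q`-th power map. -/
def IsSplitAt (N Q : ℕ) (R : k[X][X]) (t : k) : Prop :=
  ∃ y : Fin N → k, Function.Injective y ∧ ∀ i, y i ^ Q = y i ∧ (spec R t).eval (y i) = 0

/-- The box: exponents `α i < n - i`. -/
def box (n : ℕ) : Finset (Fin n → ℕ) := Fintype.piFinset fun i => Finset.range (n - i)

end MPb197b4W
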