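import Pool.Agent.Lib.MP_b197b4_ntW.WA
import Pool.Agent.Lib.MP_b197b4_ntW.WB
import Pool.Agent.Lib.MP_b197b4_ntW.WC
import Pool.Agent.Lib.MP_b197b4_ntW.WD

/-!
# Part W, WE: residues; the number of zeros; linear dependence
-/

set_option autoImplicit false

noncomputable section

namespace MPb197b4W

open Polynomial

section residues

variable {k : Type} [Field k] {E : Type} [Field E]

/-- `ψ b` is a power series with constant coefficient `a`. -/
def Res (ψ : E →+* LaurentSeries k) (b : E) (a : k) : Prop :=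
  ∃ g : PowerSeries k, ψ b = (g : LaurentSeries k) ∧ PowerSeries.constantCoeff g = a

theorem Res.mul {ψ : E →+* LaurentSeries k} {b c : E} {u v : k} (hb : Res ψ b u) (hc : Res ψ c v) :
    Res ψ (b * c) (u * v) := by
  obtain ⟨g, hg, rfl⟩ := hb
  obtain ⟨h, hh, rfl⟩ := hc
  exact ⟨g * h, by rw [map_mul, hg, hh]; push_cast; rfl, by rw [map_mul]⟩

theorem Res.add {ψ : E →+* LaurentSeries k} {b c : E} {u v : k} (hb : Res ψ b u) (hc : Res ψ c v) :
    Res ψ (b + c) (u + v) := by
  obtain ⟨g, hg, rfl⟩ := hb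
  obtain ⟨h, hh, rfl⟩ := hc
  exact ⟨g + h, by rw [map_add, hg, hh]; push_cast; rfl, by rw [map_add]⟩

theorem Res.one (ψ : E →+* LaurentSeries k) : Res ψ 1 1 := ⟨1, by simp, by simp⟩

theorem Res.zero (ψ : E →+* LaurentSeries k) : Res ψ 0 0 := ⟨0, by simp, by simp⟩

theorem Res.pow {ψ : E →+* LaurentSeries k} {b : E} {u : k} (hb : Res ψ b u) (n : ℕ) :
    Res ψ (b ^ n) (u ^ n) := by
  induction n with
  | zero => simpa using Res.one ψ
  | succ n ih => simpa [pow_succ] using ih.mul hb

theorem Res.prod {ψ : E →+* LaurentSeries k} {ι : Type*} {s : Finset ι} {b : ι → E} {u : ι → k}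
    (h : ∀ i ∈ s, Res ψ (b i) (u i)) : Res ψ (∏ i ∈ s, b i) (∏ i ∈ s, u i) := by
  classical
  induction s using Finset.induction_on with
  | empty => simpa using Res.one ψ
  | insert a s ha ih =>
    rw [Finset.prod_insert ha, Finset.prod_insert ha]
    exact (h a (by simp)).mul (ih fun i hi => h i (by simp [hi]))

theorem Res.sum {ψ : E →+* LaurentSeries k} {ι : Type*} {s : Finset ι} {b : ι → E} {u : ι → k}
    (h : ∀ i ∈ s, Res ψ (b i) (u i)) : Res ψ (∑ i ∈ s, b i) (∑ i ∈ s, u i) := by
  classical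
  induction s using Finset.induction_on with
  | empty => simpa using Res.zero ψ
  | insert a s ha ih =>
    rw [Finset.sum_insert ha, Finset.sum_insert ha]
    exact (h a (by simp)).add (ih fun i hi => h i (by simp [hi]))

theorem Res.unique {ψ : E →+* LaurentSeries k} {b : E} {u v : k} (hu : Res ψ b u) (hv : Res ψ b v) :
    u = v := by
  obtain ⟨g, hg, rfl⟩ := hu
  obtain ⟨h, hh, rfl⟩ := hv
  have : g = h := HahnSeries.ofPowerSeries_injective (Γ := ℤ) (hg.symm.trans hh)
  rw [this]

theorem atPt_constantCoeff (t : k) (f : k[X]) : PowerSeries.constantCoeff (atPt t f) = f.eval t := by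
  have : (PowerSeries.constantCoeff (R := k)).comp (atPt t) = evalRingHom t := by
    ext a <;> simp [atPt]
  exact DFunLike.congr_fun this f

theorem Res.poly [Algebra k[X] E] {ψ : E →+* LaurentSeries k} {t : k}
    (hψ : ∀ f : k[X], ψ (algebraMap k[X] E f) = (atPt t f : LaurentSeries k)) (f : k[X]) :
    Res ψ (algebraMap k[X] E f) (f.eval t) := ⟨atPt t f, hψ f, atPt_constantCoeff t f⟩

/-- The constants. -/
def cst (k E : Type) [Field k] [Field E] [Algebra k[X] E] : k →+* E := (algebraMap k[X] E).comp C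

/-- The monomials. -/
def mon {N : ℕ} (k : Type) {E : Type} [Field k] [Field E] [Algebra k[X] E] (x : Fin N → E)
    (α : Fin N → ℕ) (a : ℕ) : E := algebraMap k[X] E (X ^ a) * ∏ i, x i ^ α i

end residues

section orders

variable {k : Type} [Field k] {E : Type} [Field E] [Algebra (RatFunc k) E] [Algebra k[X] E]
  [IsScalarTower k[X] (RatFunc k) E]

/-- The order of an element at a point is at most the degree of its norm. -/
theorem order_le [FiniteDimensional (RatFunc k) E] [IsGalois (RatFunc k) E] {t : k}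
    {ψ : E →+* LaurentSeries k}
    (hψ : ∀ f : k[X], ψ (algebraMap k[X] E f) = (atPt t f : LaurentSeries k)) {m : ℕ} {b : E}
    (hb : LM (k := k) m b) (h0 : b ≠ 0) {g : PowerSeries k} (hg : ψ b = (g : LaurentSeries k)) {n : ℕ}
    (hn : (PowerSeries.X : PowerSeries k) ^ n ∣ g) : n ≤ Module.finrank (RatFunc k) E * m := by
  classical
  obtain ⟨f, hf0, hfd, hf⟩ := hb.norm h0
  have h1 : ∀ τ : E ≃ₐ[RatFunc k] E, ∃ g : PowerSeries k, ψ (τ b) = (g : LaurentSeries k) :=
    fun τ => local_integral hψ (hb.aut τ).1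
  choose γ hγ using h1
  have h2 : atPt t f = ∏ τ : E ≃ₐ[RatFunc k] E, γ τ := by
    apply HahnSeries.ofPowerSeries_injective (Γ := ℤ)
    rw [map_prod]
    have := hψ f
    rw [hf, map_prod] at this
    rw [show HahnSeries.ofPowerSeries ℤ k (atPt t f) = (atPt t f : LaurentSeries k) from rfl, ← this]
    exact Finset.prod_congr rfl fun τ _ => hγ τ
  have h3 : γ 1 = g := HahnSeries.ofPowerSeries_injective (Γ := ℤ) ((hγ 1).symm.trans hg)
  have h4 : (PowerSeries.X : PowerSeries k) ^ n ∣ atPt t f := by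
    rw [h2]
    exact hn.trans (h3 ▸ Finset.dvd_prod_of_mem γ (Finset.mem_univ 1))
  have h5 := atPt_dvd h4
  have h6 := natDegree_le_of_dvd h5 hf0
  rw [natDegree_pow, natDegree_X_sub_C, mul_one] at h6
  exact h6.trans hfd

theorem LM.cst_mul {m : ℕ} {b : E} (hb : LM (k := k) m b) (a : k) : LM (k := k) m (cst k E a * b) := by
  have : LM (k := k) 0 (algebraMap k[X] E (C a)) := LM.poly (by simp)
  simpa [cst] using this.mul hb

theorem LM.zero : LM (k := k) 0 (0 : E) := by
  simpa using LM.poly (k := k) (E := E) (m := 0) (f := 0) (by simp)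

theorem LM.one : LM (k := k) 0 (1 : E) := by
  simpa using LM.poly (k := k) (E := E) (m := 0) (f := 1) (by simp)

theorem LM.sum {m : ℕ} {ι : Type*} {s : Finset ι} {b : ι → E} (h : ∀ i ∈ s, LM (k := k) m (b i)) :
    LM (k := k) m (∑ i ∈ s, b i) := by
  classical
  induction s using Finset.induction_on with
  | empty => simpa using (LM.zero (k := k) (E := E)).mono (Nat.zero_le m)
  | insert a s ha ih =>
    rw [Finset.sum_insert ha]
    exact (h a (by simp)).add (ih fun i hi => h i (by simp [hi]))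

theorem LM.pow {m : ℕ} {b : E} (h : LM (k := k) m b) (n : ℕ) : LM (k := k) (n * m) (b ^ n) := by
  induction n with
  | zero => simpa using LM.one (k := k) (E := E)
  | succ n ih => simpa [pow_succ, Nat.succ_mul] using ih.mul h

theorem LM.prod {ι : Type*} {s : Finset ι} {m : ι → ℕ} {b : ι → E} (h : ∀ i ∈ s, LM (k := k) (m i) (b i)) :
    LM (k := k) (∑ i ∈ s, m i) (∏ i ∈ s, b i) := by
  classical
  induction s using Finset.induction_on with
  | empty => simpa using LM.one (k := k) (E := E)
  | insert a s ha ih =>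
    rw [Finset.prod_insert ha, Finset.sum_insert ha]
    exact (h a (by simp)).mul (ih fun i hi => h i (by simp [hi]))

/-- More than `G m + 1` elements of `F_m` are linearly dependent over `k`. -/
theorem dependent [FiniteDimensional (RatFunc k) E] [IsGalois (RatFunc k) E] {t : k}
    {ψ : E →+* LaurentSeries k}
    (hψ : ∀ f : k[X], ψ (algebraMap k[X] E f) = (atPt t f : LaurentSeries k)) {m : ℕ} {ι : Type*}
    [Fintype ι] {v : ι → E} (hv : ∀ i, LM (k := k) m (v i))
    (hc : Module.finrank (RatFunc k) E * m + 1 < Fintype.card ι) :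
    ∃ z : ι → k, z ≠ 0 ∧ ∑ i, cst k E (z i) * v i = 0 := by
  classical
  have h1 : ∀ i, ∃ g : PowerSeries k, ψ (v i) = (g : LaurentSeries k) :=
    fun i => local_integral hψ (hv i).1
  choose γ hγ using h1
  set G := Module.finrank (RatFunc k) E * m + 1 with hG
  let T : (ι → k) →ₗ[k] (Fin G → k) :=
    LinearMap.pi fun n => (PowerSeries.coeff (R := k) n).comp (Fintype.linearCombination k γ)
  have hT : LinearMap.ker T ≠ ⊥ := by
    apply LinearMap.ker_ne_bot_of_finrank_lt
    simpa using hc
  obtain ⟨z, hz, hz0⟩ := (Submodule.ne_bot_iff _).1 hT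
  refine ⟨z, hz0, ?_⟩
  by_contra hne
  have hLM : LM (k := k) m (∑ i, cst k E (z i) * v i) := LM.sum fun i _ => (hv i).cst_mul _
  have hg : ψ (∑ i, cst k E (z i) * v i) = ((∑ i, z i • γ i : PowerSeries k) : LaurentSeries k) := by
    rw [map_sum]
    rw [show ((∑ i, z i • γ i : PowerSeries k) : LaurentSeries k)
      = HahnSeries.ofPowerSeries ℤ k (∑ i, z i • γ i) from rfl, map_sum]
    refine Finset.sum_congr rfl fun i _ => ?_
    rw [map_mul, hγ, cst, RingHom.comp_apply, hψ, PowerSeries.smul_eq_C_mul, map_mul]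
    simp [atPt]
  have hX : (PowerSeries.X : PowerSeries k) ^ G ∣ ∑ i, z i • γ i := by
    rw [PowerSeries.X_pow_dvd_iff]
    intro n hn
    have := congr_fun (LinearMap.mem_ker.1 hz) ⟨n, hn⟩
    simpa [T, Fintype.linearCombination_apply] using this
  have := order_le hψ hLM hne hg hX
  omega

end orders

end MPb197b4W
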