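import Pool.Agent.Lib.MP_b197b4_ntW.WE

/-!
# Part W, WF: the auxiliary function and its zeros
-/

set_option autoImplicit false

noncomputable section

namespace MPb197b4W

open Polynomial

/-- A Galois covering of the line with group the symmetric group. -/
structure Cov (k E : Type) [Field k] [Field E] [Algebra (RatFunc k) E] [Algebra k[X] E] (N D : ℕ) where
  /-- the roots -/
  x : Fin N → E
  inj : Function.Injective x
  lm : ∀ i, LM (k := k) D (x i)
  /-- the group -/
  τ : Equiv.Perm (Fin N) ≃ (E ≃ₐ[RatFunc k] E)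
  act : ∀ σ i, τ σ (x i) = x (σ i)

/-- A point of the line, where the covering is not ramified, fixed by the `Q`-th power map. -/
structure Pt {k E : Type} [Field k] [Field E] [Algebra (RatFunc k) E] [Algebra k[X] E] {N D : ℕ}
    (c : Cov k E N D) (Q : ℕ) (t : k) where
  /-- the local homomorphism -/
  ψ : E →+* LaurentSeries k
  hψ : ∀ f : k[X], ψ (algebraMap k[X] E f) = (atPt t f : LaurentSeries k)
  /-- the values of the roots -/
  y : Fin N → k
  res : ∀ i, Res ψ (c.x i) (y i)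
  /-- the Frobenius permutation -/
  φ : Equiv.Perm (Fin N)
  frob : ∀ i, y i ^ Q = y (φ i)
  fix : t ^ Q = t

section core

variable {k : Type} [Field k] {E : Type} [Field E] [Algebra (RatFunc k) E] [Algebra k[X] E]
  [IsScalarTower k[X] (RatFunc k) E] {N D : ℕ}

omit [IsScalarTower k[X] (RatFunc k) E] in
theorem Cov.finrank (c : Cov k E N D) [FiniteDimensional (RatFunc k) E] [IsGalois (RatFunc k) E] :
    Module.finrank (RatFunc k) E = N.factorial := by
  classical
  rw [← IsGalois.card_aut_eq_finrank, ← Nat.card_congr c.τ, Nat.card_eq_fintype_card,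
    Fintype.card_perm, Fintype.card_fin]

theorem Cov.mon_lm (c : Cov k E N D) {α : Fin N → ℕ} (hα : α ∈ box N) {a M : ℕ} (ha : a ≤ M) :
    LM (k := k) (M + D * N ^ 2) (mon k c.x α a) := by
  have h1 : LM (k := k) (E := E) M (algebraMap k[X] E (X ^ a)) := LM.poly (by simpa using ha)
  have h2 : LM (k := k) (∑ i, α i * D) (∏ i, c.x i ^ α i) := LM.prod fun i _ => (c.lm i).pow _
  refine h1.mul (h2.mono ?_)
  rw [← Finset.sum_mul, mul_comm]
  exact Nat.mul_le_mul_left _ (box_sum_le hα)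

theorem aut_poly (τ : E ≃ₐ[RatFunc k] E) (f : k[X]) : τ (algebraMap k[X] E f) = algebraMap k[X] E f := by
  rw [IsScalarTower.algebraMap_apply k[X] (RatFunc k) E, AlgEquiv.commutes]

theorem aut_cst (τ : E ≃ₐ[RatFunc k] E) (a : k) : τ (cst k E a) = cst k E a := aut_poly τ _

theorem Cov.aut_mon (c : Cov k E N D) (ρ : Equiv.Perm (Fin N)) (α : Fin N → ℕ) (a : ℕ) :
    c.τ ρ (mon k c.x α a) = mon k (fun i => c.x (ρ i)) α a := by
  simp only [mon, map_mul, map_prod, map_pow, c.act]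
  rw [← map_pow, ← map_pow, aut_poly]

omit [IsScalarTower k[X] (RatFunc k) E] in
theorem Pt.res_mon {c : Cov k E N D} {Q : ℕ} {t : k} (P : Pt c Q t) (ρ : Equiv.Perm (Fin N))
    (α : Fin N → ℕ) (a : ℕ) :
    Res P.ψ (mon k (fun i => c.x (ρ i)) α a) (t ^ a * ∏ i, P.y (ρ i) ^ α i) := by
  have h1 := Res.poly P.hψ (X ^ a : k[X])
  rw [eval_pow, eval_X] at h1
  exact h1.mul (Res.prod fun i _ => (P.res (ρ i)).pow _)

omit [IsScalarTower k[X] (RatFunc k) E] in
theorem Pt.res_cst {c : Cov k E N D} {Q : ℕ} {t : k} (P : Pt c Q t) (a : k) :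
    Res P.ψ (cst k E a) a := by
  have h1 := Res.poly P.hψ (C a : k[X])
  rwa [eval_C] at h1

theorem mon_indep {x : Fin N → E}
    (h : LinearIndependent (RatFunc k) fun α : box N => ∏ i, x i ^ (α : Fin N → ℕ) i) {M : ℕ}
    (w : box N × Fin M → k) (hw : ∑ i, cst k E (w i) * mon k x (i.1 : Fin N → ℕ) (i.2 : ℕ) = 0) :
    w = 0 := by
  classical
  let z : (Fin N → ℕ) → ℕ → k := fun α a =>
    if h : α ∈ box N ∧ a < M then w (⟨α, h.1⟩, ⟨a, h.2⟩) else 0
  have hz : ∀ i : box N × Fin M, z i.1 i.2 = w i := by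
    rintro ⟨⟨α, hα⟩, ⟨a, ha⟩⟩
    simp only [z]
    rw [dif_pos ⟨hα, ha⟩]
  have h1 := box_indep_t h z M (by
    rw [← hw, Fintype.sum_prod_type, ← Finset.sum_coe_sort (box N)]
    refine Finset.sum_congr rfl fun α _ => ?_
    rw [← Fin.sum_univ_eq_sum_range (fun a => algebraMap (RatFunc k) E (RatFunc.C (z α a)) *
      (algebraMap (RatFunc k) E RatFunc.X ^ a * ∏ i, x i ^ (α : Fin N → ℕ) i)) M]
    refine Finset.sum_congr rfl fun a _ => ?_
    have e1 : z α a = w (α, a) := hz (α, a)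
    rw [e1]
    simp only [mon, cst, RingHom.comp_apply, map_pow]
    rw [IsScalarTower.algebraMap_apply k[X] (RatFunc k) E (C _), RatFunc.algebraMap_C,
      IsScalarTower.algebraMap_apply k[X] (RatFunc k) E X, RatFunc.algebraMap_X])
  funext i
  rw [← hz i]
  exact h1 _ i.1.2 _ i.2.2

omit [Algebra (RatFunc k) E] [IsScalarTower k[X] (RatFunc k) E] in
theorem mon_psi {t : k} {ψ : E →+* LaurentSeries k}
    (hψ : ∀ f : k[X], ψ (algebraMap k[X] E f) = (atPt t f : LaurentSeries k)) (a : k) :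
    ψ (cst k E a) = ((PowerSeries.C a : PowerSeries k) : LaurentSeries k) := by
  rw [cst, RingHom.comp_apply, hψ]
  simp [atPt]

/-- The residue at a point of the conjugate of the auxiliary function is zero. -/
theorem Pt.res_zero {p μ : ℕ} [Fact p.Prime] [CharP k p] {c : Cov k E N D} {t : k}
    (P : Pt c (p ^ (2 * μ)) t) {σ ρ : Equiv.Perm (Fin N)} (hρ : P.φ * ρ = ρ * σ)
    {ι : Type*} [Fintype ι] (z s : ι → k) (hs : ∀ j, s j ^ p ^ μ = z j)
    (A B : ι → (Fin N → ℕ) × ℕ)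
    (hz : ∑ j, cst k E (z j) * (mon k c.x (B j).1 (B j).2 ^ p ^ μ * c.τ σ (mon k c.x (A j).1 (A j).2)) = 0) :
    Res P.ψ (c.τ ρ (∑ j, cst k E (s j) * (mon k c.x (B j).1 (B j).2 * mon k c.x (A j).1 (A j).2 ^ p ^ μ)))
      0 := by
  classical
  let r : Equiv.Perm (Fin N) → (Fin N → ℕ) × ℕ → k := fun ρ a => t ^ a.2 * ∏ i, P.y (ρ i) ^ a.1 i
  have h1 : Res P.ψ (c.τ ρ (∑ j, cst k E (s j) *
      (mon k c.x (B j).1 (B j).2 * mon k c.x (A j).1 (A j).2 ^ p ^ μ)))
      (∑ j, s j * (r ρ (B j) * r ρ (A j) ^ p ^ μ)) := by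
    rw [map_sum]
    refine Res.sum fun j _ => ?_
    rw [map_mul, map_mul, map_pow, aut_cst, c.aut_mon, c.aut_mon]
    exact (P.res_cst _).mul ((P.res_mon ρ _ _).mul ((P.res_mon ρ _ _).pow _))
  have h2 : Res P.ψ (c.τ ρ (∑ j, cst k E (z j) *
      (mon k c.x (B j).1 (B j).2 ^ p ^ μ * c.τ σ (mon k c.x (A j).1 (A j).2))))
      (∑ j, z j * (r ρ (B j) ^ p ^ μ * r (ρ * σ) (A j))) := by
    rw [map_sum]
    refine Res.sum fun j _ => ?_
    rw [map_mul, map_mul, map_pow, aut_cst, c.aut_mon, c.aut_mon]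
    have e1 : c.τ ρ (mon k (fun i => c.x (σ i)) (A j).1 (A j).2)
        = mon k (fun i => c.x ((ρ * σ) i)) (A j).1 (A j).2 := by
      simp only [mon, map_mul, map_prod, map_pow, c.act, Equiv.Perm.mul_apply]
      rw [← map_pow, ← map_pow, aut_poly]
    rw [e1]
    exact (P.res_cst _).mul (((P.res_mon ρ _ _).pow _).mul (P.res_mon (ρ * σ) _ _))
  rw [hz, map_zero] at h2
  have h3 := h2.unique (Res.zero P.ψ)
  have h4 : ∀ a, r ρ a ^ p ^ (2 * μ) = r (ρ * σ) a := by
    intro a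
    simp only [r]
    rw [mul_pow, ← Finset.prod_pow, ← pow_mul, mul_comm a.2, pow_mul, P.fix, ← hρ]
    congr 1
    refine Finset.prod_congr rfl fun i _ => ?_
    rw [← pow_mul, mul_comm (a.1 i), pow_mul, P.frob]
    rfl
  have h5 : (∑ j, s j * (r ρ (B j) * r ρ (A j) ^ p ^ μ)) ^ p ^ μ = 0 := by
    rw [← h3, sum_pow_char_pow]
    refine Finset.sum_congr rfl fun j _ => ?_
    rw [mul_pow, mul_pow, hs, ← pow_mul, ← pow_add, ← two_mul, h4]
  have hp : p ^ μ ≠ 0 := pow_ne_zero _ (Fact.out : p.Prime).ne_zero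
  rw [pow_eq_zero_iff hp] at h5
  rwa [h5] at h1

/-- The auxiliary function is not zero. -/
theorem aux_ne_zero {p μ : ℕ} [Fact p.Prime] [CharP k p] [IsAlgClosed k]
    [FiniteDimensional (RatFunc k) E] [IsGalois (RatFunc k) E] {t : k} {ψ : E →+* LaurentSeries k}
    (hψ : ∀ f : k[X], ψ (algebraMap k[X] E f) = (atPt t f : LaurentSeries k))
    {x : Fin N → E} (h : LinearIndependent (RatFunc k) fun α : box N => ∏ i, x i ^ (α : Fin N → ℕ) i)
    {L M l m : ℕ} (hL : ∀ j : box N × Fin L, LM (k := k) l (mon k x (j.1 : Fin N → ℕ) (j.2 : ℕ)))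
    (hM : ∀ j : box N × Fin M, LM (k := k) m (mon k x (j.1 : Fin N → ℕ) (j.2 : ℕ)))
    (hq : Module.finrank (RatFunc k) E * l < p ^ μ)
    (s : (box N × Fin M) × (box N × Fin L) → k)
    (hs : ∑ j, cst k E (s j) * (mon k x (j.2.1 : Fin N → ℕ) (j.2.2 : ℕ) *
      mon k x (j.1.1 : Fin N → ℕ) (j.1.2 : ℕ) ^ p ^ μ) = 0) : s = 0 := by
  classical
  have hinj : Function.Injective ψ := ψ.injective
  have hU : ∀ i : box N × Fin M, ∃ g : PowerSeries k,
      ψ (mon k x (i.1 : Fin N → ℕ) (i.2 : ℕ)) = (g : LaurentSeries k) :=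
    fun i => local_integral hψ (hM i).1
  choose u hu using hU
  have hb : ∀ w : box N × Fin L → k,
      LM (k := k) l (∑ j, cst k E (w j) * mon k x (j.1 : Fin N → ℕ) (j.2 : ℕ)) :=
    fun w => LM.sum fun j _ => (hL j).cst_mul _
  have hg' : ∀ w : box N × Fin L → k, ∃ g : PowerSeries k,
      ψ (∑ j, cst k E (w j) * mon k x (j.1 : Fin N → ℕ) (j.2 : ℕ)) = (g : LaurentSeries k) :=
    fun w => local_integral hψ (hb w).1
  choose Γ hΓ using hg'
  -- the linear combinations
  have hlin : ∀ z : box N × Fin M → k, ∑ i, z i • Γ (fun j => s (i, j))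
      = Γ (fun j => ∑ i, z i * s (i, j)) := by
    intro z
    apply HahnSeries.ofPowerSeries_injective (Γ := ℤ)
    rw [map_sum]
    rw [show HahnSeries.ofPowerSeries ℤ k (Γ (fun j => ∑ i, z i * s (i, j)))
      = (Γ (fun j => ∑ i, z i * s (i, j)) : LaurentSeries k) from rfl, ← hΓ]
    have e1 : ∑ j, cst k E (∑ i, z i * s (i, j)) * mon k x (j.1 : Fin N → ℕ) (j.2 : ℕ)
        = ∑ i, cst k E (z i) * ∑ j, cst k E (s (i, j)) * mon k x (j.1 : Fin N → ℕ) (j.2 : ℕ) := by
      simp only [map_sum, Finset.sum_mul, Finset.mul_sum, map_mul, mul_assoc]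
      rw [Finset.sum_comm]
    rw [e1, map_sum]
    refine Finset.sum_congr rfl fun i _ => ?_
    rw [map_mul, hΓ, mon_psi hψ, PowerSeries.smul_eq_C_mul, map_mul]
  have hu' : LinearIndependent k u := by
    rw [Fintype.linearIndependent_iff]
    intro w hw
    have e1 : ∑ i, cst k E (w i) * mon k x (i.1 : Fin N → ℕ) (i.2 : ℕ) = 0 := by
      apply hinj
      rw [map_sum, map_zero]
      have e2 : ((∑ i, w i • u i : PowerSeries k) : LaurentSeries k) = 0 := by rw [hw]; simp
      rw [← e2, show ((∑ i, w i • u i : PowerSeries k) : LaurentSeries k)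
        = HahnSeries.ofPowerSeries ℤ k (∑ i, w i • u i) from rfl, map_sum]
      refine Finset.sum_congr rfl fun i _ => ?_
      rw [map_mul, hu, mon_psi hψ, PowerSeries.smul_eq_C_mul, map_mul]
    have := mon_indep h w e1
    intro i
    exact congr_fun this i
  have hne := nonvanish (p := p) (μ := μ) (u := u) (g := fun i => Γ (fun j => s (i, j))) hu' (by
    intro z
    rw [hlin]
    by_cases hz : ∑ j, cst k E (∑ i, z i * s (i, j)) * mon k x (j.1 : Fin N → ℕ) (j.2 : ℕ) = 0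
    · left
      apply HahnSeries.ofPowerSeries_injective (Γ := ℤ)
      rw [map_zero]
      rw [show HahnSeries.ofPowerSeries ℤ k (Γ (fun j => ∑ i, z i * s (i, j)))
        = (Γ (fun j => ∑ i, z i * s (i, j)) : LaurentSeries k) from rfl, ← hΓ, hz, map_zero]
    · right
      have h0 : Γ (fun j => ∑ i, z i * s (i, j)) ≠ 0 := by
        intro h0
        apply hz
        apply hinj
        rw [hΓ, h0, map_zero]
        simp
      obtain ⟨n, hn⟩ : ∃ n : ℕ, (Γ (fun j => ∑ i, z i * s (i, j))).order = n := by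
        have := PowerSeries.order_finite_iff_ne_zero.2 h0
        exact ⟨_, (ENat.natCast_toNat (by simpa using this.ne)).symm⟩
      rw [hn]
      have h2 : n ≤ Module.finrank (RatFunc k) E * l :=
        order_le hψ (hb _) hz (hΓ _) (by
          rw [PowerSeries.X_pow_dvd_iff]
          intro m hm
          apply PowerSeries.coeff_of_lt_order
          rw [hn]
          exact_mod_cast hm)
      exact_mod_cast lt_of_le_of_lt h2 hq) (by
    apply HahnSeries.ofPowerSeries_injective (Γ := ℤ)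
    have e3 := congrArg ψ hs
    rw [map_zero, map_sum, Fintype.sum_prod_type] at e3
    rw [map_zero, ← e3, map_sum]
    refine Finset.sum_congr rfl fun i _ => ?_
    rw [map_mul (HahnSeries.ofPowerSeries ℤ k), map_pow (HahnSeries.ofPowerSeries ℤ k)]
    rw [show HahnSeries.ofPowerSeries ℤ k (Γ (fun j => s (i, j)))
      = (Γ (fun j => s (i, j)) : LaurentSeries k) from rfl, ← hΓ,
      show HahnSeries.ofPowerSeries ℤ k (u i) = (u i : LaurentSeries k) from rfl, ← hu, map_sum ψ,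
      Finset.sum_mul]
    refine Finset.sum_congr rfl fun j _ => ?_
    simp only [map_mul, map_pow]
    ring)
  funext ij
  obtain ⟨i, j⟩ := ij
  have h1 : ∑ j, cst k E (s (i, j)) * mon k x (j.1 : Fin N → ℕ) (j.2 : ℕ) = 0 := by
    apply hinj
    rw [hΓ (fun j => s (i, j)), hne i, map_zero]
    simp
  exact congr_fun (mon_indep h (fun j => s (i, j)) h1) j

/-- The number of zeros. -/
theorem core [IsAlgClosed k] {p μ : ℕ} [Fact p.Prime] [CharP k p]
    [FiniteDimensional (RatFunc k) E] [IsGalois (RatFunc k) E] (c : Cov k E N D) (S : Finset k)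
    (P : ∀ t : S, Pt c (p ^ (2 * μ)) (t : k)) (σ : Equiv.Perm (Fin N)) {L M l m : ℕ}
    (hl : L + D * N ^ 2 ≤ l) (hm : M + D * N ^ 2 ≤ m) (hG : N.factorial * l < p ^ μ)
    (hc : N.factorial * (l * p ^ μ + m) + 1 < (N.factorial * L) * (N.factorial * M)) :
    ∑ t : S, (Finset.univ.filter fun ρ : Equiv.Perm (Fin N) => (P t).φ * ρ = ρ * σ).card
      ≤ N.factorial * (l + m * p ^ μ) := by
  classical
  rcases isEmpty_or_nonempty S with h | ⟨⟨t1⟩⟩
  · simp
  have hfin := c.finrank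
  have hbox : LinearIndependent (RatFunc k) fun α : box N => ∏ i, c.x i ^ (α : Fin N → ℕ) i :=
    box_indep c.inj c.τ c.act
  have hL : ∀ j : box N × Fin L, LM (k := k) l (mon k c.x (j.1 : Fin N → ℕ) (j.2 : ℕ)) :=
    fun j => (c.mon_lm j.1.2 (M := L) j.2.2.le).mono hl
  have hM : ∀ j : box N × Fin M, LM (k := k) m (mon k c.x (j.1 : Fin N → ℕ) (j.2 : ℕ)) :=
    fun j => (c.mon_lm j.1.2 (M := M) j.2.2.le).mono hm
  obtain ⟨z, hz0, hz⟩ := dependent (P t1).hψ (m := p ^ μ * l + m)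
    (v := fun j : (box N × Fin M) × (box N × Fin L) =>
      mon k c.x (j.2.1 : Fin N → ℕ) (j.2.2 : ℕ) ^ p ^ μ *
        c.τ σ (mon k c.x (j.1.1 : Fin N → ℕ) (j.1.2 : ℕ)))
    (fun j => ((hL j.2).pow _).mul ((hM j.1).aut _)) (by
      rw [hfin]
      simp only [Fintype.card_prod, Fintype.card_fin, Fintype.card_coe, card_box]
      rw [mul_comm (p ^ μ) l]
      refine hc.trans_le (le_of_eq ?_)
      ring)
  have hp : p ^ μ ≠ 0 := pow_ne_zero _ (Fact.out : p.Prime).ne_zero
  have hroot : ∀ j, ∃ s : k, s ^ p ^ μ = z j :=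
    fun j => IsAlgClosed.exists_pow_nat_eq (z j) (Nat.pos_of_ne_zero hp)
  choose s hs using hroot
  set b : E := ∑ j, cst k E (s j) * (mon k c.x (j.2.1 : Fin N → ℕ) (j.2.2 : ℕ) *
      mon k c.x (j.1.1 : Fin N → ℕ) (j.1.2 : ℕ) ^ p ^ μ) with hbdef
  have hb0 : b ≠ 0 := by
    intro hb
    apply hz0
    have := aux_ne_zero (P t1).hψ hbox hL hM (by rwa [hfin]) s hb
    funext j
    rw [← hs j, this, Pi.zero_apply, zero_pow hp]
  have hbLM : LM (k := k) (l + p ^ μ * m) b :=
    LM.sum fun j _ => ((hL j.2).mul ((hM j.1).pow _)).cst_mul _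
  obtain ⟨f, hf0, hfd, hf⟩ := hbLM.norm hb0
  -- the order of the norm at a point
  have hord : ∀ t : S, (X - C (t : k)) ^
      (Finset.univ.filter fun ρ : Equiv.Perm (Fin N) => (P t).φ * ρ = ρ * σ).card ∣ f := by
    intro t
    apply atPt_dvd
    have h1 : ∀ ρ : Equiv.Perm (Fin N), ∃ g : PowerSeries k,
        (P t).ψ (c.τ ρ b) = (g : LaurentSeries k) :=
      fun ρ => local_integral (P t).hψ (hbLM.aut _).1
    choose γ hγ using h1
    have h2 : atPt (t : k) f = ∏ ρ : Equiv.Perm (Fin N), γ ρ := by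
      apply HahnSeries.ofPowerSeries_injective (Γ := ℤ)
      rw [map_prod]
      have := (P t).hψ f
      rw [hf, ← Equiv.prod_comp c.τ, map_prod] at this
      rw [show HahnSeries.ofPowerSeries ℤ k (atPt (t : k) f)
        = (atPt (t : k) f : LaurentSeries k) from rfl, ← this]
      exact Finset.prod_congr rfl fun ρ _ => hγ ρ
    rw [h2, ← Finset.prod_const]
    refine (Finset.prod_dvd_prod_of_dvd _ _ fun ρ hρ => ?_).trans
      (Finset.prod_dvd_prod_of_subset _ _ γ (Finset.subset_univ _))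
    have h3 : Res (P t).ψ (c.τ ρ b) 0 := (P t).res_zero (Finset.mem_filter.1 hρ).2 z s hs
      (fun j => ((j.1.1 : Fin N → ℕ), (j.1.2 : ℕ))) (fun j => ((j.2.1 : Fin N → ℕ), (j.2.2 : ℕ))) hz
    obtain ⟨g, hg, hg0⟩ := h3
    have h4 : γ ρ = g := HahnSeries.ofPowerSeries_injective (Γ := ℤ) ((hγ ρ).symm.trans hg)
    rw [h4, PowerSeries.X_dvd_iff, hg0]
  have hprod : (∏ t : S, (X - C (t : k)) ^
      (Finset.univ.filter fun ρ : Equiv.Perm (Fin N) => (P t).φ * ρ = ρ * σ).card) ∣ f := by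
    apply Finset.prod_dvd_of_coprime
    · intro a _ b _ hab
      apply IsCoprime.pow
      exact pairwise_coprime_X_sub_C (s := fun t : S => (t : k)) Subtype.val_injective hab
    · intro t _
      exact hord t
  have h6 := natDegree_le_of_dvd hprod hf0
  rw [natDegree_prod_of_monic _ _ fun t _ => (monic_X_sub_C _).pow _] at h6
  simp only [natDegree_pow, natDegree_X_sub_C, mul_one] at h6
  refine h6.trans (hfd.trans (le_of_eq ?_))
  rw [hfin, mul_comm (p ^ μ) m]

end core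

end MPb197b4W
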