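import Pool.Agent.Lib.MP_b197b4_ntW.WF

/-!
# Part W, WH: the theorem
-/

set_option autoImplicit false

noncomputable section

namespace MPb197b4W

open Polynomial

section points

variable {k : Type} [Field k] {E : Type} [Field E] [Algebra (RatFunc k) E] [Algebra k[X] E]
  [IsScalarTower k[X] (RatFunc k) E] {N D : ℕ}

omit [Algebra (RatFunc k) E] [IsScalarTower k[X] (RatFunc k) E] in
theorem factor {R : k[X][X]} (hm : R.Monic) (hN : R.natDegree = N) {x : Fin N → E}
    (hx : Function.Injective x) (hr : ∀ i, eval₂ (algebraMap k[X] E) (x i) R = 0) :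
    R.map (algebraMap k[X] E) = ∏ i, (X - C (x i)) := by
  apply eq_of_monic_of_dvd_of_natDegree_le
  · exact monic_prod_of_monic _ _ fun i _ => monic_X_sub_C _
  · exact hm.map _
  · apply Finset.prod_dvd_of_coprime
    · intro a _ b _ hab
      exact pairwise_coprime_X_sub_C hx hab
    · intro i _
      rw [dvd_iff_isRoot, IsRoot, eval_map]
      exact hr i
  · rw [natDegree_prod_of_monic _ _ fun i _ => monic_X_sub_C _, hm.natDegree_map, hN]
    simp

omit [Algebra (RatFunc k) E] [IsScalarTower k[X] (RatFunc k) E] in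
theorem spec_factor {R : k[X][X]} (hm : R.Monic) (hN : R.natDegree = N) {x : Fin N → E}
    (hx : Function.Injective x) (hr : ∀ i, eval₂ (algebraMap k[X] E) (x i) R = 0) {t : k}
    {ψ : E →+* LaurentSeries k}
    (hψ : ∀ f : k[X], ψ (algebraMap k[X] E f) = (atPt t f : LaurentSeries k)) {y : Fin N → k}
    (hy : ∀ i, Res ψ (x i) (y i)) : spec R t = ∏ i, (X - C (y i)) := by
  choose g hg hgy using hy
  have h1 : (R.map (atPt t)).map (HahnSeries.ofPowerSeries ℤ k)
      = (∏ i, (X - C (g i))).map (HahnSeries.ofPowerSeries ℤ k) := by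
    rw [Polynomial.map_map, Polynomial.map_prod]
    have e1 : (HahnSeries.ofPowerSeries ℤ k).comp (atPt t) = ψ.comp (algebraMap k[X] E) :=
      RingHom.ext fun f => (hψ f).symm
    rw [e1, ← Polynomial.map_map, factor hm hN hx hr, Polynomial.map_prod]
    refine Finset.prod_congr rfl fun i _ => ?_
    rw [Polynomial.map_sub, Polynomial.map_sub, Polynomial.map_X, Polynomial.map_X, Polynomial.map_C,
      Polynomial.map_C, hg]
  have h2 := Polynomial.map_injective _ (HahnSeries.ofPowerSeries_injective (Γ := ℤ) (R := k)) h1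
  have h3 : (PowerSeries.constantCoeff (R := k)).comp (atPt t) = evalRingHom t :=
    RingHom.ext fun f => atPt_constantCoeff t f
  rw [spec, ← h3, ← Polynomial.map_map, h2, Polynomial.map_prod]
  refine Finset.prod_congr rfl fun i _ => ?_
  rw [Polynomial.map_sub, Polynomial.map_X, Polynomial.map_C, hgy]

omit [Field E] [Algebra (RatFunc k) E] [Algebra k[X] E] [IsScalarTower k[X] (RatFunc k) E] in
/-- The values of a polynomial with fixed coefficients at fixed points are fixed. -/
theorem eval_fix {p n : ℕ} [Fact p.Prime] [CharP k p] {f : k[X]} (hf : ∀ j, f.coeff j ^ p ^ n = f.coeff j)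
    (t : k) : (f.eval t) ^ p ^ n = f.eval (t ^ p ^ n) := by
  have h1 : f.map (iterateFrobenius k p n) = f := by
    ext j
    rw [coeff_map, iterateFrobenius_def, hf]
  have h2 := eval_map_apply (f := iterateFrobenius k p n) (p := f) t
  rw [h1] at h2
  simpa [iterateFrobenius_def] using h2.symm

theorem exists_pt {p n : ℕ} [Fact p.Prime] [CharP k p] [IsAlgClosed k] {R : k[X][X]} (hm : R.Monic)
    (hN : R.natDegree = N)
    [IsSplittingField (RatFunc k) E (R.map (algebraMap k[X] (RatFunc k)))]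
    (hF : ∀ i j, ((R.coeff i).coeff j) ^ p ^ n = (R.coeff i).coeff j) (c : Cov k E N D)
    (hr : ∀ i, eval₂ (algebraMap k[X] E) (c.x i) R = 0) {t : k} (ht : t ^ p ^ n = t)
    (hs : (spec R t).Separable) : Nonempty (Pt c (p ^ n) t) := by
  obtain ⟨ψ, hψ⟩ := exists_local (E := E) hm hs
  have h1 : ∀ i, ∃ g : PowerSeries k, ψ (c.x i) = (g : LaurentSeries k) :=
    fun i => local_integral hψ (c.lm i).1
  choose g hg using h1
  have hres : ∀ i, Res ψ (c.x i) (PowerSeries.constantCoeff (g i)) := fun i => ⟨g i, hg i, rfl⟩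
  have hfac := spec_factor hm hN c.inj hr hψ hres
  set y : Fin N → k := fun i => PowerSeries.constantCoeff (g i) with hy
  have hinj : Function.Injective y := by
    rw [hfac] at hs
    exact separable_prod_X_sub_C_iff.1 hs
  have hroot : ∀ i, ∃ j, y i ^ p ^ n = y j := by
    intro i
    have e1 : (spec R t).eval (y i ^ p ^ n) = 0 := by
      rw [← eval_fix (f := spec R t)]
      · rw [hfac, eval_prod, Finset.prod_eq_zero (Finset.mem_univ i) (by simp [y]), zero_pow]
        exact pow_ne_zero _ (Fact.out : p.Prime).ne_zero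
      · intro j
        rw [spec, coeff_map, coe_evalRingHom, eval_fix (hF j), ht]
    rw [hfac, eval_prod, Finset.prod_eq_zero_iff] at e1
    obtain ⟨j, _, hj⟩ := e1
    exact ⟨j, by simpa [sub_eq_zero] using hj⟩
  choose φ hφ using hroot
  have hφi : Function.Injective φ := by
    intro a b hab
    apply hinj
    have : y a ^ p ^ n = y b ^ p ^ n := by rw [hφ, hφ, hab]
    exact (iterateFrobenius_inj k p n) (by simpa [iterateFrobenius_def] using this)
  exact ⟨{ ψ := ψ, hψ := hψ, y := y, res := hres,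
           φ := Equiv.ofBijective φ (Finite.injective_iff_bijective.1 hφi),
           frob := fun i => hφ i, fix := ht }⟩

omit [IsScalarTower k[X] (RatFunc k) E] in
theorem Pt.split_iff {Q : ℕ} {R : k[X][X]} (hm : R.Monic) (hN : R.natDegree = N)
    {c : Cov k E N D} (hr : ∀ i, eval₂ (algebraMap k[X] E) (c.x i) R = 0) {t : k} (P : Pt c Q t)
    (hs : (spec R t).Separable) : P.φ = 1 ↔ IsSplitAt N Q R t := by
  have hfac := spec_factor hm hN c.inj hr P.hψ P.res
  have hinj : Function.Injective P.y := by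
    rw [hfac] at hs
    exact separable_prod_X_sub_C_iff.1 hs
  constructor
  · intro h
    refine ⟨P.y, hinj, fun i => ⟨by rw [P.frob, h]; rfl, ?_⟩⟩
    rw [hfac, eval_prod]
    exact Finset.prod_eq_zero (Finset.mem_univ i) (by simp)
  · rintro ⟨y, hyi, hy⟩
    have h1 : ∀ i, ∃ j, y i = P.y j := by
      intro i
      have e1 := (hy i).2
      rw [hfac, eval_prod, Finset.prod_eq_zero_iff] at e1
      obtain ⟨j, _, hj⟩ := e1
      exact ⟨j, by simpa [sub_eq_zero] using hj⟩
    choose e he using h1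
    have hei : Function.Injective e := by
      intro a b hab
      apply hyi
      rw [he, he, hab]
    have hes : Function.Surjective e := (Finite.injective_iff_surjective.1 hei)
    ext i
    obtain ⟨j, rfl⟩ := hes i
    have : P.y (P.φ (e j)) = P.y (e j) := by
      rw [← P.frob, ← he]
      exact (hy j).1
    rw [hinj this]
    rfl

/-- A polynomial with `N` different roots is separable. -/
theorem separable_of_split {Q : ℕ} {R : k[X][X]} (hm : R.Monic) (hN : R.natDegree = N) {t : k}
    (h : IsSplitAt N Q R t) : (spec R t).Separable := by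
  obtain ⟨y, hyi, hy⟩ := h
  have h1 : spec R t = ∏ i, (X - C (y i)) := by
    apply eq_of_monic_of_dvd_of_natDegree_le
    · exact monic_prod_of_monic _ _ fun i _ => monic_X_sub_C _
    · exact hm.map _
    · apply Finset.prod_dvd_of_coprime
      · intro a _ b _ hab
        exact pairwise_coprime_X_sub_C hyi hab
      · intro i _
        rw [dvd_iff_isRoot, IsRoot]
        exact (hy i).2
    · rw [natDegree_prod_of_monic _ _ fun i _ => monic_X_sub_C _, spec, hm.natDegree_map, hN]
      simp
  rw [h1]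
  exact separable_prod_X_sub_C_iff.2 hyi

end points

/-- The choice of the parameters. -/
theorem numeric {G c0 q : ℕ} (hG : 0 < G) (hq : G + G * (c0 * (c0 + 3)) + 2 * c0 + 4 < q) :
    ∃ l L M m : ℕ, L + c0 ≤ l ∧ M + c0 ≤ m ∧ G * l < q ∧ G * (l * q + m) + 1 < (G * L) * (G * M) ∧
      G * (l + m * q) ≤ q ^ 2 + G * (2 * c0 + 3) * q := by
  obtain ⟨l, hl⟩ : ∃ l, l = (q - 1) / G := ⟨_, rfl⟩
  have h1 : G * l ≤ q - 1 := by rw [hl]; exact Nat.mul_div_le _ _
  have h2 : q - 1 < G * l + G := by
    rw [hl]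
    have := Nat.lt_mul_div_succ (q - 1) hG
    linarith [Nat.mul_succ G ((q - 1) / G)]
  have h3 : q ≤ G * l + G := by omega
  have hlc : c0 ≤ l := by
    by_contra h
    push Not at h
    have : G * l + G ≤ G * c0 := by nlinarith
    nlinarith [Nat.zero_le (G * (c0 * c0)), Nat.zero_le (G * c0)]
  obtain ⟨L, rfl⟩ := Nat.exists_eq_add_of_le' hlc
  refine ⟨L + c0, L, L + c0 + c0 + 3, L + c0 + c0 + 3 + c0, le_rfl, le_rfl, by omega, ?_, ?_⟩
  · set g := G * (L + c0) with hg
    have hgl : G * (c0 * (c0 + 3)) + 2 * c0 + 4 < g := by omega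
    have e1 : (G * L) * (G * (L + c0 + c0 + 3)) + G * G * (c0 * (c0 + 3)) = g * g + 3 * G * g := by
      rw [hg]; ring
    have e2 : G * ((L + c0) * q + (L + c0 + c0 + 3 + c0)) + 1 = g * q + g + G * (2 * c0 + 3) + 1 := by
      rw [hg]; ring
    have e3 : g * q ≤ g * g + G * g := by nlinarith
    have e4 : G * (G * (c0 * (c0 + 3)) + 2 * c0 + 4) < G * g := Nat.mul_lt_mul_of_pos_left hgl hG
    have e5 : g ≤ G * g := Nat.le_mul_of_pos_left _ hG
    nlinarith
  · set g := G * (L + c0) with hg
    have e1 : G * (L + c0 + (L + c0 + c0 + 3 + c0) * q) = g + g * q + G * (2 * c0 + 3) * q := by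
      rw [hg]; ring
    rw [e1]
    have e2 : g + 1 ≤ q := by omega
    nlinarith

theorem card_le {k : Type} [Field k] {Q : ℕ} (hQ : 1 < Q) (S : Finset k) (hS : ∀ t ∈ S, t ^ Q = t) :
    S.card ≤ Q := by
  classical
  have h0 : (X ^ Q - X : k[X]) ≠ 0 := by
    apply Monic.ne_zero
    apply monic_X_pow_sub
    rw [degree_X]
    exact_mod_cast hQ
  have h1 : S.val ≤ (X ^ Q - X : k[X]).roots := by
    rw [Multiset.le_iff_subset S.nodup]
    intro t ht
    rw [mem_roots h0, IsRoot, eval_sub, eval_pow, eval_X, hS t ht, sub_self]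
  calc S.card = Multiset.card S.val := rfl
    _ ≤ Multiset.card (X ^ Q - X : k[X]).roots := Multiset.card_le_card h1
    _ ≤ (X ^ Q - X : k[X]).natDegree := card_roots' _
    _ ≤ Q := by
      apply (natDegree_sub_le _ _).trans
      rw [natDegree_X_pow, natDegree_X]
      omega

/-- The upper bound for all the classes. -/
theorem sum_le (N D : ℕ) : ∃ c : ℕ, ∀ (p μ : ℕ) [Fact p.Prime] (k : Type) [Field k] [CharP k p]
    [IsAlgClosed k] (E : Type) [Field E] [Algebra (RatFunc k) E] [Algebra k[X] E]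
    [IsScalarTower k[X] (RatFunc k) E] [FiniteDimensional (RatFunc k) E] [IsGalois (RatFunc k) E]
    (cv : Cov k E N D) (S : Finset k) (P : ∀ t : S, Pt cv (p ^ (2 * μ)) (t : k))
    (σ : Equiv.Perm (Fin N)), μ ≠ 0 →
    ∑ t : S, (Finset.univ.filter fun ρ : Equiv.Perm (Fin N) => (P t).φ * ρ = ρ * σ).card
      ≤ p ^ (2 * μ) + c * p ^ μ := by
  classical
  set G := N.factorial with hG
  set c0 := D * N ^ 2 with hc0
  set K := G + G * (c0 * (c0 + 3)) + 2 * c0 + 4 with hK
  have hGpos : 0 < G := N.factorial_pos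
  refine ⟨G * (2 * c0 + 3) + G * K, ?_⟩
  intro p μ _ k _ _ _ E _ _ _ _ _ _ cv S P σ hμ
  have hQq : p ^ (2 * μ) = (p ^ μ) ^ 2 := by rw [← pow_mul, mul_comm]
  by_cases hq : K < p ^ μ
  · obtain ⟨l, L, M, m, h1, h2, h3, h4, h5⟩ := numeric hGpos hq
    refine (core cv S P σ h1 h2 h3 h4).trans (h5.trans ?_)
    rw [hQq]
    nlinarith [Nat.zero_le (G * K * p ^ μ)]
  · push Not at hq
    have h1 : ∑ t : S, (Finset.univ.filter fun ρ : Equiv.Perm (Fin N) =>
        (P t).φ * ρ = ρ * σ).card ≤ ∑ _t : S, G := by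
      refine Finset.sum_le_sum fun t _ => ?_
      refine (Finset.card_le_univ _).trans (le_of_eq ?_)
      rw [Fintype.card_perm, Fintype.card_fin]
    have hp : 1 < p := (Fact.out : p.Prime).one_lt
    have h2 : S.card ≤ p ^ (2 * μ) :=
      card_le (Nat.one_lt_pow (by omega) hp) S fun t ht => (P ⟨t, ht⟩).fix
    rw [Finset.sum_const, smul_eq_mul, Finset.card_univ, Fintype.card_coe] at h1
    refine h1.trans ?_
    have h3 : S.card * G ≤ (p ^ μ) ^ 2 * G := by rw [← hQq]; exact Nat.mul_le_mul_right _ h2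
    have h4 : (p ^ μ) ^ 2 * G ≤ G * K * p ^ μ := by
      have : p ^ μ * p ^ μ ≤ K * p ^ μ := Nat.mul_le_mul_right _ hq
      nlinarith
    have h5 : G * K * p ^ μ ≤ p ^ (2 * μ) + (G * (2 * c0 + 3) + G * K) * p ^ μ := by
      nlinarith [Nat.zero_le (p ^ (2 * μ)), Nat.zero_le (G * (2 * c0 + 3) * p ^ μ)]
    omega

end MPb197b4W
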